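import Pool.Agent.W354.HW.Euler

set_option autoImplicit false

/-!
# The Hecke characters `ψ^k` of `y² = x³ - x`, `k` even
-/

open Complex Filter Topology Set

namespace Pool.Agent.X293.EV

open Pool.Agent.H304R3.HK (tc bb CS UH ee bb_zero bb_two_odd)
open Pool.Agent.H304R3.HK.M3 (In b_mul b_rec b_one b_two b_odd)
open Pool.Agent.H304R2.EC (PS Sh Sh_inert PS_split an aE aE_eq an_inert)
open Pool.Agent.H304R2.EC.EProd (local_factor)
open Pool.Agent.H304R2.EC.A1 (Q prim prim_iff re_mul' im_mul' isCoprime_of_norm norm_def')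
open Pool.Agent.W354.PK (HCk psik bK LK tc_mul goodK uh_psik)
open Pool.Agent.W354.PK.TK (psik_apply)
open Pool.Agent.W354.HW

/-- the modulus of `ψ^k` -/
def qe (k : ℕ) : GaussianInt := if k % 4 = 0 then 1 else 2

/-- the finite part of `ψ^k` -/
noncomputable def ce (k : ℕ) : GaussianInt →* ℂ := if k % 4 = 0 then 1 else chiE ^ 2

theorem gE_sq : ∀ a b s t : ZMod 4, gE (a + 2 * s) (b + 2 * t) ^ 2 = gE a b ^ 2 := by
  decide +kernel

theorem chiE_sq_per (a b : GaussianInt) (h : (2 : GaussianInt) ∣ a - b) : chiE a ^ 2 = chiE b ^ 2 := by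
  obtain ⟨c, hc⟩ := h
  have e2 : (2 : GaussianInt).re = 2 := rfl
  have e3 : (2 : GaussianInt).im = 0 := rfl
  have hre : a.re = b.re + 2 * c.re := by
    have := congrArg Zsqrtd.re hc
    rw [Zsqrtd.re_sub, re_mul', e2, e3] at this
    linarith
  have him : a.im = b.im + 2 * c.im := by
    have := congrArg Zsqrtd.im hc
    rw [Zsqrtd.im_sub, im_mul', e2, e3] at this
    linarith
  rw [chiE_apply, chiE_apply, hre, him, ← tc_pow, ← tc_pow]
  push_cast
  rw [gE_sq]

theorem coprime_two_iff (z : GaussianInt) : IsCoprime z 2 ↔ z.norm % 2 = 1 := by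
  constructor
  · intro h
    have h4 : IsCoprime z (2 * 2) := h.mul_right h
    have h5 : qE ∣ 2 * 2 := ⟨⟨1, -1⟩, by decide⟩
    exact (coprime_iff z).1 (h4.of_isCoprime_of_dvd_right h5)
  · intro h
    have h1 := (coprime_iff z).2 h
    exact h1.of_isCoprime_of_dvd_right ⟨⟨1, 1⟩, by decide⟩

theorem dvd_two {d : GaussianInt} (hd : d ∣ 2) (h2 : ¬ (2 : GaussianInt) ∣ d) :
    d ∣ (⟨1, 1⟩ : GaussianInt) := by
  obtain ⟨e, he⟩ := hd
  have hen : e.norm % 2 = 0 := by
    by_contra hc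
    have hodd : e.norm % 2 = 1 := by omega
    have hcop : IsCoprime e 2 := (coprime_two_iff e).mpr hodd
    have hu : IsUnit e := hcop.isUnit_of_dvd' dvd_rfl ⟨d, by rw [he]; ring⟩
    apply h2
    obtain ⟨u, rfl⟩ := hu
    exact ⟨((u⁻¹ : (GaussianInt)ˣ) : GaussianInt), by rw [he, mul_assoc, Units.mul_inv, mul_one]⟩
  have h1 : ∃ e' : GaussianInt, e = ⟨1, 1⟩ * e' := by
    rw [norm_def'] at hen
    have hpar : (e.re + e.im) % 2 = 0 := by
      have h2 : ∀ x : ℤ, (x ^ 2) % 2 = x % 2 := by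
        intro x
        rcases Int.emod_two_eq_zero_or_one x with h | h <;> rw [pow_two, Int.mul_emod, h] <;> simp
      have h3 := h2 e.re
      have h4 := h2 e.im
      omega
    refine ⟨⟨(e.re + e.im) / 2, (e.im - e.re) / 2⟩, ?_⟩
    apply Zsqrtd.ext
    · rw [re_mul']; simp only; omega
    · rw [im_mul']; simp only; omega
  obtain ⟨e', rfl⟩ := h1
  have h3 : (⟨1, 1⟩ : GaussianInt) * ⟨1, -1⟩ = ⟨1, 1⟩ * (d * e') := by
    have : (⟨1, 1⟩ : GaussianInt) * ⟨1, -1⟩ = 2 := by decide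
    rw [this, he]
    ring
  have h4 : (⟨1, -1⟩ : GaussianInt) = d * e' :=
    mul_left_cancel₀ (show (⟨1, 1⟩ : GaussianInt) ≠ 0 by decide) h3
  have h5 : (⟨1, 1⟩ : GaussianInt) = ⟨0, 1⟩ * ⟨1, -1⟩ := by decide
  rw [h5, h4]
  exact ⟨⟨0, 1⟩ * e', by ring⟩

theorem negI_four (j : ℕ) : (-I : ℂ) ^ (4 * j) = 1 := by
  have : (-I : ℂ) ^ 4 = 1 := by
    rw [neg_pow]
    norm_num [I_pow_four]
  rw [pow_mul, this, one_pow]

theorem ce_zero {k : ℕ} (h : k % 4 = 0) : ce k = 1 := if_pos h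

theorem ce_two {k : ℕ} (h : k % 4 = 2) : ce k = chiE ^ 2 := if_neg (by omega)

/-- on elements of odd norm the finite part is `χ^k` -/
theorem ce_odd {k : ℕ} (hk : Even k) {z : GaussianInt} (hz : z.norm % 2 = 1) : ce k z = chiE z ^ k := by
  have h4 : chiE z ^ 4 = 1 := chiE_four z ((chiE_ne z).2 hz)
  have hk2 : k % 4 = 0 ∨ k % 4 = 2 := by
    obtain ⟨j, rfl⟩ := hk
    omega
  rcases hk2 with h | h
  · rw [ce_zero h]
    obtain ⟨j, rfl⟩ : ∃ j, k = 4 * j := ⟨k / 4, by omega⟩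
    rw [pow_mul, h4, one_pow]
    rfl
  · rw [ce_two h, pow_apply']
    obtain ⟨j, rfl⟩ : ∃ j, k = 4 * j + 2 := ⟨k / 4, by omega⟩
    rw [pow_add, pow_mul, h4, one_pow, one_mul]

theorem ce_HC {k : ℕ} (hk : Even k) : HCk k (qe k) (ce k) := by
  have hk2 : k % 4 = 0 ∨ k % 4 = 2 := by
    obtain ⟨j, rfl⟩ := hk
    omega
  rcases hk2 with h | h
  · have e1 : qe k = 1 := if_pos h
    rw [e1, ce_zero h]
    obtain ⟨j, rfl⟩ : ∃ j, k = 4 * j := ⟨k / 4, by omega⟩
    exact
      { q0 := one_ne_zero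
        per := fun a b _ => rfl
        supp := fun a => by
          constructor
          · intro _
            exact isCoprime_one_right
          · intro _
            exact one_ne_zero
        nrm := fun a _ => by
          show ‖(1 : ℂ)‖ = 1
          exact norm_one
        unit := by
          rw [negI_four]
          rfl
        prim := fun d _ h2 => absurd (one_dvd d) h2 }
  · have e1 : qe k = 2 := if_neg (by omega)
    rw [e1, ce_two h]
    obtain ⟨j, rfl⟩ : ∃ j, k = 4 * j + 2 := ⟨k / 4, by omega⟩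
    have hI : chiE ⟨0, 1⟩ = -I := by
      have := chiE_HC.unit
      rwa [pow_one] at this
    exact
      { q0 := by decide
        per := fun a b h => by rw [pow_apply', pow_apply', chiE_sq_per a b h]
        supp := fun a => by
          rw [pow_apply', coprime_two_iff, ← chiE_ne]
          exact pow_ne_zero_iff (by norm_num)
        nrm := fun a h => by
          rw [coprime_two_iff, ← coprime_iff] at h
          rw [pow_apply', norm_pow, chiE_HC.nrm a h, one_pow]
        unit := by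
          rw [pow_apply', hI, pow_add, negI_four, one_mul]
        prim := by
          intro d h1 h2
          have h3 := dvd_two h1 h2
          refine ⟨⟨0, 1⟩, (coprime_two_iff _).2 (by decide), ?_, ?_⟩
          · have h4 : (⟨0, 1⟩ : GaussianInt) - 1 = ⟨1, 1⟩ * ⟨0, 1⟩ := by decide
            rw [h4]
            exact h3.mul_right _
          · rw [pow_apply', hI]
            have h5 : (-I : ℂ) ^ 2 = -1 := by rw [neg_sq, I_sq]
            rw [h5]
            norm_num }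

/-- the L-function of `ψ^k` -/
noncomputable def FF (k : ℕ) : ℂ → ℂ := LK k (ce k)

/-- the value of `ψ^k` at the prime above `2` -/
noncomputable def h2 (k : ℕ) : ℂ := psik k (ce k) ⟨1, 1⟩

theorem h2_norm {k : ℕ} (hk : Even k) : ‖h2 k‖ ≤ 1 := (uh_psik (ce_HC hk)).hb _

theorem in_e {k : ℕ} (hk : Even k) : In (psik k (ce k)) where
  z0 := bb_zero _ (uh_psik (ce_HC hk)).h0
  two := fun j m hm => bb_two_odd _ (uh_psik (ce_HC hk)).hi j m hm

theorem nat_norm_odd (p : ℕ) (hp : p % 2 = 1) : (p : GaussianInt).norm % 2 = 1 := by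
  rw [norm_def']
  simp only [Zsqrtd.re_natCast, Zsqrtd.im_natCast]
  have h1 : ((p : ℤ)) % 2 = 1 := by omega
  rw [pow_two, zero_pow (by norm_num), add_zero, Int.mul_emod, h1]
  rfl

theorem psik_nat {k : ℕ} (hk : Even k) (p : ℕ) (hp : p.Prime) (h2 : p ≠ 2) :
    psik k (ce k) (p : GaussianInt) = 1 := by
  have hp0 : (p : GaussianInt) ≠ 0 := by exact_mod_cast hp.ne_zero
  have hpc : (p : ℂ) ≠ 0 := by exact_mod_cast hp.ne_zero
  have hodd : p % 2 = 1 := hp.eq_two_or_odd.resolve_left h2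
  rw [psik_apply, if_neg hp0, tc_nat, ce_odd hk (nat_norm_odd p hodd)]
  have : ((‖(p : ℂ)‖ : ℝ) : ℂ) = (p : ℂ) := by
    rw [Complex.norm_natCast, Complex.ofReal_natCast]
  rw [this, div_self hpc, one_pow, mul_one]
  rcases (by omega : p % 4 = 1 ∨ p % 4 = 3) with h | h
  · rw [chiE_nat1 p h, one_pow]
  · rw [chiE_nat3 p h, hk.neg_one_pow]

theorem ee_split {k : ℕ} (hk : Even k) (p : ℕ) (hp : p.Prime) (h : p % 4 = 1) :
    ee (psik k (ce k)) p = 1 := by
  have h2 : p ≠ 2 := by rintro rfl; norm_num at h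
  unfold ee
  rw [if_neg h2, if_neg (by omega), psik_nat hk p hp h2]

theorem ee_inert {k : ℕ} (hk : Even k) (p : ℕ) (hp : p.Prime) (h : p % 4 = 3) :
    ee (psik k (ce k)) p = -1 := by
  have h2 : p ≠ 2 := by rintro rfl; norm_num at h
  unfold ee
  rw [if_neg h2, if_pos h, psik_nat hk p hp h2]

theorem b_inert {k : ℕ} (hk : Even k) (p : ℕ) (hp : p.Prime) (h : p % 4 = 3) :
    bb (psik k (ce k)) p = 0 := by
  rw [b_odd (in_e hk) p (by omega), (Sh_inert _ p hp h 0).1]

theorem b_split {k : ℕ} (hk : Even k) (p : ℕ) (hp : p.Prime) (h1 : p % 4 = 1) (α β : ℂ)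
    (hs : α + β = (aE p : ℂ)) (hm : α * β = p) :
    bb (psik k (ce k)) p = (α ^ k + β ^ k) / ((Real.sqrt p : ℝ) : ℂ) ^ k := by
  have h2 : p ≠ 2 := by rintro rfl; norm_num at h1
  rw [b_odd (in_e hk) p (by omega)]
  obtain ⟨a, b, hb0, hb, hab, hn, hPS⟩ := PS_split p hp h1
  have hne : ((a, b) : ℤ × ℤ) ≠ (a, -b) := by
    intro heq
    rw [Prod.mk.injEq] at heq
    omega
  have han : an p = 2 * a := by
    unfold an
    rw [hPS, Finset.sum_pair hne]
    ring
  rw [aE_eq p hp h2, han] at hs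
  set z : ℂ := (a : ℂ) + (b : ℂ) * I with hz
  set z' : ℂ := (a : ℂ) - (b : ℂ) * I with hz'
  have e1 : z + z' = α + β := by rw [hs, hz, hz']; push_cast; ring
  have e2 : z * z' = α * β := by
    rw [hm, hz, hz']
    have : ((p : ℤ) : ℂ) = ((a ^ 2 + b ^ 2 : ℤ) : ℂ) := by rw [hn]
    push_cast at this
    rw [this]
    linear_combination (-(b : ℂ) ^ 2) * Complex.I_sq
  have hsum : Sh (psik k (ce k)) p = (z ^ k + z' ^ k) / ((Real.sqrt p : ℝ) : ℂ) ^ k := by
    unfold Sh
    rw [hPS, Finset.sum_pair hne]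
    have hpr : ∀ c : ℤ, c ^ 2 = b ^ 2 → c % 2 = 0 → (a + c) % 4 = 1 →
        psik k (ce k) ⟨a, c⟩ = ((a : ℂ) + (c : ℂ) * I) ^ k / ((Real.sqrt p : ℝ) : ℂ) ^ k := by
      intro c hc hc2 hc4
      have h0 : (⟨a, c⟩ : GaussianInt) ≠ 0 := by
        intro h
        have h5 : a = 0 := congrArg Zsqrtd.re h
        have h6 : c = 0 := congrArg Zsqrtd.im h
        rw [h5, h6] at hc4
        norm_num at hc4
      have h7 : chiE ⟨a, c⟩ = 1 := chiE_prim ⟨hc2, hc4⟩
      have h10 : (⟨a, c⟩ : GaussianInt).norm % 2 = 1 := by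
        rw [← chiE_ne, h7]
        exact one_ne_zero
      rw [psik_apply, if_neg h0, ce_odd hk h10, h7, one_pow, one_mul, ← div_pow]
      have h8 : tc ⟨a, c⟩ = (a : ℂ) + (c : ℂ) * I := rfl
      have h9 : ‖tc ⟨a, c⟩‖ = Real.sqrt p := by
        rw [eq_comm, Real.sqrt_eq_iff_mul_self_eq (by positivity) (norm_nonneg _), ← sq,
          Pool.Agent.H304R3.HK.tc_star_mul, norm_def']
        simp only
        rw [hc, hn]
        simp
      rw [h9, h8]
    rw [hpr b rfl hb hab, hpr (-b) (by ring) (by omega) (by omega), ← add_div]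
    congr 2
    rw [hz']
    push_cast
    ring
  rw [hsum]
  congr 1
  have h4 : (α - z) * (α - z') = 0 := by
    have : (α - z) * (α - z') = α ^ 2 - (z + z') * α + z * z' := by ring
    rw [this, e1, e2]
    ring
  rcases mul_eq_zero.mp h4 with h5 | h5
  · have h6 : α = z := sub_eq_zero.mp h5
    have h7 : β = z' := by
      rw [h6] at e1
      exact (add_left_cancel e1).symm
    rw [h6, h7]
  · have h6 : α = z' := sub_eq_zero.mp h5
    have h7 : β = z := by
      rw [h6, add_comm] at e1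
      exact (add_left_cancel e1).symm
    rw [h6, h7, add_comm]

/-- the Euler product of `L(s, ψ^k)` without the factor at `2` -/
theorem euler_e {k : ℕ} (hk : Even k) (hk0 : k ≠ 0) (α β : ℕ → ℂ)
    (hαβ : ∀ p : ℕ, p.Prime → p ≠ 2 → α p + β p = (aE p : ℂ) ∧ α p * β p = p) (s : ℂ)
    (hs : 1 < s.re) :
    HasProd (fun p : {p : ℕ // p.Prime ∧ p ≠ 2} =>
      (if (p : ℕ) % 4 = 3 then 1 - ((p : ℕ) : ℂ) ^ (-(2 * s)) else
        (1 - α p ^ k * ((p : ℕ) : ℂ) ^ (-(s + k / 2))) *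
        (1 - β p ^ k * ((p : ℕ) : ℂ) ^ (-(s + k / 2))))⁻¹)
      (FF k s * (1 - h2 k * (2 : ℂ) ^ (-s))) := by
  obtain ⟨A, hA, hgood⟩ := goodK
  have hsum := (hgood k (qe k) (ce k) (by omega) (ce_HC hk)).2.1 s hs
  set h := psik k (ce k) with hh
  have hUH : UH h := uh_psik (ce_HC hk)
  have I : In h := in_e hk
  set f : ℕ → ℂ := fun n => bb h n * (n : ℂ) ^ (-s) with hf
  have hsum' : HasSum f (FF k s) := hsum
  have hf1 : f 1 = 1 := by simp [hf, b_one I]
  have hf0 : f 0 = 0 := by simp [hf, I.z0]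
  have hmul : ∀ {m n : ℕ}, m.Coprime n → f (m * n) = f m * f n := by
    intro m n hmn
    simp only [hf]
    rw [b_mul I m n hmn]
    push_cast
    rw [Complex.natCast_mul_natCast_cpow]
    ring
  have hprod := EulerProduct.eulerProduct_hasProd hf1 hmul hsum'.summable.norm hf0
  rw [hsum'.tsum_eq] at hprod
  have hpowX : ∀ (p : ℕ) (e : ℕ), f (p ^ e) = bb h (p ^ e) * ((p : ℂ) ^ (-s)) ^ e := by
    intro p e
    simp only [hf]
    congr 1
    induction e with
    | zero => simp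
    | succ e ih =>
      rw [pow_succ, pow_succ, ← ih]
      push_cast
      rw [show ((p : ℂ) ^ e) = ((p ^ e : ℕ) : ℂ) by push_cast; rfl,
        Complex.natCast_mul_natCast_cpow]
  -- the factor at two
  have hn2 : ‖h2 k * (2 : ℂ) ^ (-s)‖ < 1 := by
    rw [norm_mul]
    have e1 : ‖(2 : ℂ) ^ (-s)‖ < 1 := by
      have := Complex.norm_natCast_cpow_of_pos (n := 2) (by norm_num) (-s)
      push_cast at this
      rw [this, Complex.neg_re]
      exact Real.rpow_lt_one_of_one_lt_of_neg (by norm_num) (by linarith)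
    calc ‖h2 k‖ * ‖(2 : ℂ) ^ (-s)‖ ≤ 1 * ‖(2 : ℂ) ^ (-s)‖ :=
          mul_le_mul_of_nonneg_right (h2_norm hk) (norm_nonneg _)
      _ < 1 := by rwa [one_mul]
  have htwo : ∑' e, f (2 ^ e) = (1 - h2 k * (2 : ℂ) ^ (-s))⁻¹ := by
    rw [← tsum_geometric_of_norm_lt_one hn2]
    refine tsum_congr fun e => ?_
    rw [hpowX 2 e, b_two I, ← mul_pow]
    push_cast
    rfl
  have hd0 : (1 - h2 k * (2 : ℂ) ^ (-s)) ≠ 0 := by
    intro h0
    have h1 : h2 k * (2 : ℂ) ^ (-s) = 1 := (sub_eq_zero.1 h0).symm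
    rw [h1, norm_one] at hn2
    exact lt_irrefl _ hn2
  set two : Nat.Primes := ⟨2, Nat.prime_two⟩ with htwoP
  have hone : HasProd (fun p : Nat.Primes => if p = two then (1 - h2 k * (2 : ℂ) ^ (-s)) else 1)
      (1 - h2 k * (2 : ℂ) ^ (-s)) := by
    have := hasProd_ite_eq two (1 - h2 k * (2 : ℂ) ^ (-s))
    exact this
  have hprod1 := hprod.mul hone
  set g : {p : ℕ // p.Prime ∧ p ≠ 2} → Nat.Primes := fun p => ⟨p.1, p.2.1⟩ with hg
  have hginj : Function.Injective g := by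
    intro a b hab
    apply Subtype.ext
    have := congrArg (fun x : Nat.Primes => (x : ℕ)) hab
    simpa [hg] using this
  have hsupp : ∀ p : Nat.Primes, p ∉ Set.range g →
      (∑' e, f ((p : ℕ) ^ e)) * (if p = two then (1 - h2 k * (2 : ℂ) ^ (-s)) else 1) = 1 := by
    intro p hp
    have h2' : (p : ℕ) = 2 := by
      by_contra h2'
      exact hp ⟨⟨p.1, p.2, h2'⟩, rfl⟩
    have h3 : p = two := Subtype.ext h2'
    rw [if_pos h3, h2', htwo, inv_mul_cancel₀ hd0]
  have hprod2 := (hginj.hasProd_iff hsupp).mpr hprod1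
  have hfun : ((fun p : Nat.Primes => (∑' e, f ((p : ℕ) ^ e)) *
      (if p = two then (1 - h2 k * (2 : ℂ) ^ (-s)) else 1)) ∘ g) =
      fun p : {p : ℕ // p.Prime ∧ p ≠ 2} =>
      (if (p : ℕ) % 4 = 3 then 1 - ((p : ℕ) : ℂ) ^ (-(2 * s)) else
        (1 - α p ^ k * ((p : ℕ) : ℂ) ^ (-(s + k / 2))) *
        (1 - β p ^ k * ((p : ℕ) : ℂ) ^ (-(s + k / 2))))⁻¹ := by
    funext p
    obtain ⟨p, hp, h2'⟩ := p
    have hnt : ¬ ((⟨p, hp⟩ : Nat.Primes) = two) := by
      intro h3
      exact h2' (congrArg (fun x : Nat.Primes => (x : ℕ)) h3)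
    change (∑' e, f (p ^ e)) * (if (⟨p, hp⟩ : Nat.Primes) = two then
      (1 - h2 k * (2 : ℂ) ^ (-s)) else 1) = _
    rw [if_neg hnt, mul_one]
    simp only
    have hp0 : (p : ℂ) ≠ 0 := Nat.cast_ne_zero.mpr hp.ne_zero
    obtain ⟨hα, hβ⟩ := hαβ p hp h2'
    set X : ℂ := (p : ℂ) ^ (-s) with hX
    have key := local_factor (fun e => f (p ^ e)) (bb h p * X) (ee h p * X ^ 2)
      (by simpa using hf1) (by
        have := hpowX p 1
        simp only [pow_one] at this ⊢
        exact this) (by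
        intro e
        simp only [hpowX]
        rw [b_rec hUH I p hp e]
        ring) (hsum'.summable.comp_injective (Nat.pow_right_injective hp.two_le))
    rw [eq_comm, inv_eq_iff_eq_inv]
    have hodd : p % 2 = 1 := hp.eq_two_or_odd.resolve_left h2'
    split_ifs with h3
    · have e1 : (p : ℂ) ^ (-(2 * s)) = X ^ 2 := by
        rw [hX, ← Complex.cpow_nat_mul]
        congr 1
        push_cast
        ring
      have e2 : 1 - (p : ℂ) ^ (-(2 * s)) = 1 - bb h p * X + ee h p * X ^ 2 := by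
        rw [hh, b_inert hk p hp h3, ee_inert hk p hp h3, e1]
        ring
      rw [e2]
      exact eq_inv_of_mul_eq_one_left key
    · have h1 : p % 4 = 1 := by omega
      have hc0 : ((Real.sqrt p : ℝ) : ℂ) ≠ 0 := by
        rw [sqrt_cast]
        exact (Complex.cpow_ne_zero_iff_of_exponent_ne_zero (by norm_num)).mpr hp0
      have hc2 : ((Real.sqrt p : ℝ) : ℂ) ^ 2 = p := by
        rw [← Complex.ofReal_pow, Real.sq_sqrt (Nat.cast_nonneg p), Complex.ofReal_natCast]
      have hcX : (p : ℂ) ^ (-(s + k / 2)) = X / ((Real.sqrt p : ℝ) : ℂ) ^ k := by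
        rw [sqrt_cast, ← Complex.cpow_nat_mul, hX, neg_add, Complex.cpow_add _ _ hp0,
          Complex.cpow_neg _ ((k : ℂ) / 2), div_eq_mul_inv]
        congr 3
        ring
      have hck : ((Real.sqrt p : ℝ) : ℂ) ^ k ≠ 0 := pow_ne_zero _ hc0
      have hxy : α p ^ k * β p ^ k = ((Real.sqrt p : ℝ) : ℂ) ^ k * ((Real.sqrt p : ℝ) : ℂ) ^ k := by
        rw [← mul_pow, ← mul_pow, hβ, ← sq, hc2]
      have hb : bb h p = (α p ^ k + β p ^ k) / ((Real.sqrt p : ℝ) : ℂ) ^ k :=
        b_split hk p hp h1 (α p) (β p) hα hβ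
      have hfac : (1 - α p ^ k * (p : ℂ) ^ (-(s + k / 2))) * (1 - β p ^ k * (p : ℂ) ^ (-(s + k / 2))) =
          1 - bb h p * X + ee h p * X ^ 2 := by
        rw [hcX, hb, hh, ee_split hk p hp h1]
        field_simp
        linear_combination (X ^ 2) * hxy
      rw [hfac]
      exact eq_inv_of_mul_eq_one_left key
  rw [hfun] at hprod2
  exact hprod2

end Pool.Agent.X293.EV
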