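import Pool.Agent.H304R3.HK.NzrHof
import Pool.Agent.W354.PK.FinK
import Pool.Agent.X293.EV.Chr

set_option autoImplicit false

/-!
# No zeros on the line `Re s = 1`, the real point included
(after `Pool.Agent.H304R3.HK.NzrHof`, `nz_line_of`)
-/

open Finset Filter Topology Complex
open ArithmeticFunction (vonMangoldt)
open ArithmeticFunction.vonMangoldt

namespace Pool.Agent.X293.EV

open Pool.Agent.H304R3.HK
open Pool.Agent.H304R2.EC (tendsto_logDeriv summable_vM limS1 summable_term LSeries_eq_tsum)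

theorem nz_line_all
    (lg_bb : ∀ (h : GaussianInt →* ℂ), UH h → Lg (bb h) (ccf h))
    (lam_eq : ∀ (h : GaussianInt →* ℂ), UH h → ∀ n : ℕ,
      bb (fun a => (LamK a : ℂ) * h a) n = (ArithmeticFunction.vonMangoldt n : ℂ) * ccf h n)
    (lam_one : ∀ n : ℕ, bb (fun a => (LamK a : ℂ)) n =
      ((ArithmeticFunction.vonMangoldt n * (1 + ((ZMod.χ₄ (n : ZMod 4) : ℤ) : ℝ)) : ℝ) : ℂ))
    (F_ne_zero : ∀ (b c : ℕ → ℂ), Lg b c → ∀ (F : ℂ → ℂ),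
      (∀ s : ℂ, 1 < s.re → HasSum (fun n : ℕ => b n * (n : ℂ) ^ (-s)) (F s)) →
      ∀ (s : ℂ), 1 < s.re → F s ≠ 0)
    (F_ld : ∀ (b c : ℕ → ℂ), Lg b c → ∀ (F : ℂ → ℂ),
      (∀ s : ℂ, 1 < s.re → HasSum (fun n : ℕ => b n * (n : ℂ) ^ (-s)) (F s)) →
      ∀ (s : ℂ), 1 < s.re →
      deriv F s / F s = - ∑' n : ℕ, ((ArithmeticFunction.vonMangoldt n : ℂ) * c n) * (n : ℂ) ^ (-s))
    (h : GaussianInt →* ℂ) (hh : UH h) (F G : ℂ → ℂ) (hF : Differentiable ℂ F)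
    (hG : Differentiable ℂ G)
    (sF : ∀ s : ℂ, 1 < s.re → HasSum (fun n : ℕ => bb h n * (n : ℂ) ^ (-s)) (F s))
    (sG : ∀ s : ℂ, 1 < s.re →
      HasSum (fun n : ℕ => bb (fun a => (h a) ^ 2) n * (n : ℂ) ^ (-s)) (G s))
    (t : ℝ) : F (⟨1, t⟩ : ℂ) ≠ 0 := by
  intro h0
  set z0 : ℂ := ⟨1, t⟩ with hz0
  have hz0' : z0 = 1 + t * I := by
    rw [hz0]; apply Complex.ext <;> simp
  set z1 : ℂ := 1 + (2 * t : ℝ) * I with hz1
  have hh2 := nzr_sq_UH h hh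
  have hlg := lg_bb h hh
  have hlg2 := lg_bb (nzr_sq h) hh2
  have sG' : ∀ s : ℂ, 1 < s.re →
      HasSum (fun n : ℕ => bb (nzr_sq h) n * (n : ℂ) ^ (-s)) (G s) := sG
  obtain ⟨m, hm⟩ := nzr_order F hF (F_ne_zero _ _ hlg F sF 2 (by norm_num)) z0
  obtain ⟨m2, hm2⟩ := nzr_order G hG (F_ne_zero _ _ hlg2 G sG' 2 (by norm_num)) z1
  have hm1 : 1 ≤ m := by
    by_contra hc
    have : m = 0 := by omega
    rw [this] at hm
    have h2 := (hF.analyticAt z0).analyticOrderAt_eq_zero.1 (by rw [hm]; rfl)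
    exact h2 h0
  have hL := tendsto_logDeriv F hF z0 m hm
  have hL2 := tendsto_logDeriv G hG z1 m2 hm2
  have h1 := nzr_limA
  have hcomb := ((h1.const_mul 3).sub (hL.const_mul 4)).sub hL2
  have hre : Tendsto (fun σ : ℝ => ((3 * ((σ : ℂ) *
      ∑' n : ℕ, ((vonMangoldt n * (1 + ((ZMod.χ₄ (n : ZMod 4) : ℤ) : ℝ)) : ℝ) : ℂ) *
        (n : ℂ) ^ (-(1 + σ : ℂ))) -
      4 * (((σ : ℂ)) * (deriv F (z0 + σ) / F (z0 + σ)))) -
      (σ : ℂ) * (deriv G (z1 + σ) / G (z1 + σ))).re) (𝓝[>] 0)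
      (𝓝 ((3 * 1 - 4 * (m : ℂ) - (m2 : ℂ) : ℂ).re)) :=
    (Complex.continuous_re.tendsto _).comp hcomb
  have hpos : ∀ᶠ σ : ℝ in 𝓝[>] 0, 0 ≤ ((3 * ((σ : ℂ) *
      ∑' n : ℕ, ((vonMangoldt n * (1 + ((ZMod.χ₄ (n : ZMod 4) : ℤ) : ℝ)) : ℝ) : ℂ) *
        (n : ℂ) ^ (-(1 + σ : ℂ))) -
      4 * (((σ : ℂ)) * (deriv F (z0 + σ) / F (z0 + σ)))) -
      (σ : ℂ) * (deriv G (z1 + σ) / G (z1 + σ))).re := by
    filter_upwards [self_mem_nhdsWithin] with σ hσ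
    have hσ0 : (0 : ℝ) < σ := hσ
    have hs0 : 1 < (z0 + σ).re := by
      rw [hz0']; simp; linarith
    have hs1 : 1 < (z1 + σ).re := by
      rw [hz1]; simp; linarith
    rw [F_ld _ _ hlg F sF (z0 + σ) hs0, F_ld _ _ hlg2 G sG' (z1 + σ) hs1]
    have sum1 : Summable (fun n : ℕ =>
        ((vonMangoldt n * (1 + ((ZMod.χ₄ (n : ZMod 4) : ℤ) : ℝ)) : ℝ) : ℂ) *
        (n : ℂ) ^ (-(1 + σ : ℂ))) := by
      refine summable_term _ 2 ?_ _ (by simp; linarith)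
      intro n
      rw [Complex.norm_real, Real.norm_eq_abs, abs_mul,
        abs_of_nonneg ArithmeticFunction.vonMangoldt_nonneg, mul_comm]
      exact mul_le_mul_of_nonneg_right (nzr_chi_bound n) ArithmeticFunction.vonMangoldt_nonneg
    have sumc : ∀ (c : ℕ → ℂ), (∀ n, ‖c n‖ ≤ 2) → ∀ s : ℂ, 1 < s.re →
        Summable (fun n : ℕ => ((vonMangoldt n : ℂ) * c n) * (n : ℂ) ^ (-s)) := by
      intro c hc s hs
      refine summable_term _ 2 ?_ _ hs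
      intro n
      rw [norm_mul, Complex.norm_real, Real.norm_of_nonneg ArithmeticFunction.vonMangoldt_nonneg,
        mul_comm]
      exact mul_le_mul_of_nonneg_right (hc n) ArithmeticFunction.vonMangoldt_nonneg
    have sum2 := sumc _ hlg.cd (z0 + σ) hs0
    have sum3 := sumc _ hlg2.cd (z1 + σ) hs1
    have htot : (3 * ((σ : ℂ) *
      ∑' n : ℕ, ((vonMangoldt n * (1 + ((ZMod.χ₄ (n : ZMod 4) : ℤ) : ℝ)) : ℝ) : ℂ) *
        (n : ℂ) ^ (-(1 + σ : ℂ))) -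
      4 * (((σ : ℂ)) * -∑' n : ℕ, ((vonMangoldt n : ℂ) * ccf h n) * (n : ℂ) ^ (-(z0 + σ)))) -
      (σ : ℂ) * -∑' n : ℕ, ((vonMangoldt n : ℂ) * ccf (nzr_sq h) n) * (n : ℂ) ^ (-(z1 + σ)) =
      (σ : ℂ) * ∑' n : ℕ, (3 * (((vonMangoldt n * (1 + ((ZMod.χ₄ (n : ZMod 4) : ℤ) : ℝ)) : ℝ) : ℂ) *
        (n : ℂ) ^ (-(1 + σ : ℂ))) +
        4 * (((vonMangoldt n : ℂ) * ccf h n) * (n : ℂ) ^ (-(z0 + σ))) +
        ((vonMangoldt n : ℂ) * ccf (nzr_sq h) n) * (n : ℂ) ^ (-(z1 + σ))) := by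
      rw [Summable.tsum_add ((sum1.mul_left 3).add (sum2.mul_left 4)) sum3,
        Summable.tsum_add (sum1.mul_left 3) (sum2.mul_left 4), tsum_mul_left, tsum_mul_left]
      ring
    rw [htot, Complex.re_ofReal_mul]
    refine mul_nonneg hσ0.le ?_
    rw [Complex.re_tsum (((sum1.mul_left 3).add (sum2.mul_left 4)).add sum3)]
    refine tsum_nonneg fun n => ?_
    rcases Nat.eq_zero_or_pos n with rfl | hn
    · simp
    have hn0 : (n : ℂ) ≠ 0 := by exact_mod_cast hn.ne'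
    set y : ℂ := (n : ℂ) ^ (-(t * I)) with hy
    have hy1 : ‖y‖ ≤ 1 := by
      rw [hy, Complex.norm_natCast_cpow_of_pos hn]
      simp
    have e0 : (n : ℂ) ^ (-(1 + σ : ℂ)) = (((n : ℝ) ^ (-(1 + σ)) : ℝ) : ℂ) := by
      rw [Complex.ofReal_cpow (by positivity)]; push_cast; rfl
    have e2 : (n : ℂ) ^ (-(z0 + σ)) = (((n : ℝ) ^ (-(1 + σ)) : ℝ) : ℂ) * y := by
      rw [← e0, hy, ← Complex.cpow_add _ _ hn0, hz0']; congr 1; ring
    have e3 : (n : ℂ) ^ (-(z1 + σ)) = (((n : ℝ) ^ (-(1 + σ)) : ℝ) : ℂ) * y ^ 2 := by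
      rw [← e0, hy, pow_two, ← Complex.cpow_add _ _ hn0, ← Complex.cpow_add _ _ hn0]
      congr 1; rw [hz1]; push_cast; ring
    have e4 : 3 * (((vonMangoldt n * (1 + ((ZMod.χ₄ (n : ZMod 4) : ℤ) : ℝ)) : ℝ) : ℂ) *
        (n : ℂ) ^ (-(1 + σ : ℂ))) +
        4 * (((vonMangoldt n : ℂ) * ccf h n) * (n : ℂ) ^ (-(z0 + σ))) +
        ((vonMangoldt n : ℂ) * ccf (nzr_sq h) n) * (n : ℂ) ^ (-(z1 + σ)) =
        (((n : ℝ) ^ (-(1 + σ)) : ℝ) : ℂ) * ∑ p ∈ CS n, (((1 / 4) * LamK ⟨p.1, p.2⟩ : ℝ) : ℂ) *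
          (3 + 4 * (h ⟨p.1, p.2⟩ * y) + (h ⟨p.1, p.2⟩ * y) ^ 2) := by
      rw [← lam_one n, ← lam_eq h hh n, ← lam_eq (nzr_sq h) hh2 n, e0, e2, e3]
      unfold bb
      have hsq : ∀ a, nzr_sq h a = (h a) ^ 2 := fun a => rfl
      simp only [hsq]
      have expand : ∀ (A B C D E : ℂ), 3 * (A * D) + 4 * (B * (D * E)) + C * (D * E ^ 2) =
          D * (A * 3 + B * (4 * E) + C * E ^ 2) := by
        intro A B C D E; ring
      rw [expand, Finset.mul_sum, Finset.mul_sum, Finset.mul_sum, Finset.sum_mul, Finset.sum_mul,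
        Finset.sum_mul, ← Finset.sum_add_distrib, ← Finset.sum_add_distrib]
      congr 1
      apply Finset.sum_congr rfl
      intro p _
      push_cast
      ring
    rw [e4, Complex.re_ofReal_mul]
    refine mul_nonneg (by positivity) ?_
    rw [Complex.re_sum]
    apply Finset.sum_nonneg
    intro p _
    rw [Complex.re_ofReal_mul]
    refine mul_nonneg (mul_nonneg (by norm_num) (nzr_LamK_nonneg _)) (nzr_ineq _ ?_)
    rw [norm_mul]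
    calc ‖h ⟨p.1, p.2⟩‖ * ‖y‖ ≤ 1 * 1 := mul_le_mul (hh.hb _) hy1 (norm_nonneg _) zero_le_one
      _ = 1 := one_mul 1
  have hfin := ge_of_tendsto hre hpos
  have hval : (3 * 1 - 4 * (m : ℂ) - (m2 : ℂ) : ℂ).re = 3 - 4 * (m : ℝ) - m2 := by
    simp
  rw [hval] at hfin
  have hm1' : (1 : ℝ) ≤ m := by exact_mod_cast hm1
  have hm2' : (0 : ℝ) ≤ m2 := Nat.cast_nonneg _
  linarith

open Pool.Agent.W354.PK in
/-- the L-function of `ψ^k`, `k` even, has no zeros on the line `Re s = 1` -/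
theorem FF_ne_line {k : ℕ} (hk : Even k) (hk0 : k ≠ 0) (t : ℝ) : FF k ⟨1, t⟩ ≠ 0 := by
  obtain ⟨A, hA, hgood⟩ := goodK
  obtain ⟨h1, h2, -, -⟩ := hgood k (qe k) (ce k) (by omega) (ce_HC hk)
  obtain ⟨G, hG, sG⟩ := psi_sq (by omega : 1 ≤ k) (qe k) (ce k) (ce_HC hk)
  exact nz_line_all lg_bb lam_eq lam_one F_ne_zero F_ld (psik k (ce k)) (uh_psik (ce_HC hk)) (FF k) G
    h1 hG h2 sG t

end Pool.Agent.X293.EV
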