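import Mathlib

set_option autoImplicit false

/-!
# Binomial identities for the even cohomology of `E^g`
-/

open Finset Polynomial

namespace Pool.Agent.X293.EV

/-- multiplicity of `L(s, ψ^(2l))` in `H^(2m)(E^g)` -/
def me (g m l : ℕ) : ℕ := g.choose (m - l) * g.choose (m + l)

theorem prod_center {M : Type*} [CommMonoid M] (f : ℕ → M) (m : ℕ) :
    ∏ a ∈ range (2 * m + 1), f a = f m * ∏ l ∈ range m, (f (m - (l + 1)) * f (m + (l + 1))) := by
  have e : 2 * m + 1 = m + (m + 1) := by ring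
  rw [e, prod_range_add, prod_range_succ' (fun x => f (m + x)), ← prod_range_reflect f m,
    prod_mul_distrib, Nat.add_zero]
  have h1 : ∀ l ∈ range m, f (m - 1 - l) = f (m - (l + 1)) := by
    intro l _
    congr 1
    omega
  rw [prod_congr rfl h1]
  rw [← mul_assoc, mul_comm (f m)]

theorem sum_center {M : Type*} [AddCommMonoid M] (f : ℕ → M) (m : ℕ) :
    ∑ a ∈ range (2 * m + 1), f a = f m + ∑ l ∈ range m, (f (m - (l + 1)) + f (m + (l + 1))) := by
  have e : 2 * m + 1 = m + (m + 1) := by ring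
  rw [e, sum_range_add, sum_range_succ' (fun x => f (m + x)), ← sum_range_reflect f m,
    sum_add_distrib, Nat.add_zero]
  have h1 : ∀ l ∈ range m, f (m - 1 - l) = f (m - (l + 1)) := by
    intro l _
    congr 1
    omega
  rw [sum_congr rfl h1]
  rw [← add_assoc, add_comm (f m)]

theorem neg_pow_choose (g a : ℕ) : ((-1 : ℤ)) ^ (g - a) * (g.choose a : ℤ) = (-1) ^ (g + a) * g.choose a := by
  rcases le_or_gt a g with h | h
  · have e : g + a = (g - a) + 2 * a := by omega
    rw [e, pow_add, pow_mul (-1 : ℤ) 2 a]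
    norm_num
  · rw [Nat.choose_eq_zero_of_lt h]
    simp

theorem alt_range (g m : ℕ) :
    ∑ a ∈ range (2 * m + 1), (-1 : ℤ) ^ (a + m) * ((g.choose a : ℤ) * g.choose (2 * m - a)) =
      g.choose m := by
  have h1 : (X + C (-1 : ℤ)) ^ g * (X + C 1) ^ g = expand ℤ 2 ((X + C (-1)) ^ g) := by
    have hC : (C (1 : ℤ)) = 1 := C_1
    have hC' : (C (-1 : ℤ)) = -1 := by rw [C_neg, C_1]
    rw [map_pow, map_add, expand_X, expand_C, ← mul_pow, hC, hC']
    congr 1
    ring
  have h2 := congrArg (fun P => coeff P (2 * m)) h1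
  beta_reduce at h2
  rw [coeff_mul, mul_comm 2 m, coeff_expand_mul (by norm_num), coeff_X_add_C_pow] at h2
  rw [Finset.Nat.sum_antidiagonal_eq_sum_range_succ_mk] at h2
  simp only [coeff_X_add_C_pow, one_pow, one_mul] at h2
  rw [mul_comm m 2] at h2
  have h3 : (-1 : ℤ) ^ (g + m) * ∑ x ∈ range (2 * m).succ,
      (-1) ^ (g - x) * (g.choose x : ℤ) * (g.choose (2 * m - x) : ℤ) =
      (-1 : ℤ) ^ (g + m) * ((-1) ^ (g - m) * (g.choose m : ℤ)) := by
    rw [h2]
  have h4 : (-1 : ℤ) ^ (g + m) * ((-1) ^ (g - m) * (g.choose m : ℤ)) = g.choose m := by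
    rw [neg_pow_choose, ← mul_assoc, ← pow_add, ← two_mul, pow_mul]
    norm_num
  rw [h4, mul_sum] at h3
  rw [← h3]
  refine sum_congr rfl fun a _ => ?_
  rw [neg_pow_choose, ← mul_assoc, ← mul_assoc, ← mul_assoc, ← pow_add]
  congr 2
  have e : g + m + (g + a) = (a + m) + 2 * g := by ring
  rw [e, pow_add _ (a + m), pow_mul (-1 : ℤ) 2 g]
  norm_num

theorem alt_me (g m : ℕ) : ((g.choose m : ℤ)) ^ 2 + 2 * ∑ l ∈ range m, (-1) ^ (l + 1) * (me g m (l + 1) : ℤ) =
    g.choose m := by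
  have h := alt_range g m
  rw [sum_center] at h
  refine Eq.trans ?_ h
  rw [mul_sum]
  congr 1
  · have e : 2 * m - m = m := by omega
    rw [e, ← two_mul m, pow_mul]
    norm_num
    ring
  · refine sum_congr rfl fun l hl => ?_
    have hl' : l < m := mem_range.1 hl
    have e1 : 2 * m - (m - (l + 1)) = m + (l + 1) := by omega
    have e2 : 2 * m - (m + (l + 1)) = m - (l + 1) := by omega
    have e3 : (-1 : ℤ) ^ (m - (l + 1) + m) = (-1) ^ (l + 1) := by
      have e : m - (l + 1) + m + 2 * (l + 1) = (l + 1) + 2 * m := by omega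
      have h1 : (-1 : ℤ) ^ (m - (l + 1) + m) * (-1) ^ (2 * (l + 1)) = (-1) ^ (l + 1) * (-1) ^ (2 * m) := by
        rw [← pow_add, ← pow_add, e]
      rw [pow_mul, pow_mul] at h1
      norm_num at h1
      exact h1
    have e4 : (-1 : ℤ) ^ (m + (l + 1) + m) = (-1) ^ (l + 1) := by
      have e : m + (l + 1) + m = (l + 1) + 2 * m := by ring
      rw [e, pow_add, pow_mul]
      norm_num
    rw [e1, e2, e3, e4]
    unfold me
    push_cast
    ring

theorem choose_two_add (c : ℕ) : (c + 1).choose 2 + c.choose 2 = c ^ 2 := by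
  induction c with
  | zero => rfl
  | succ c ih =>
    have h1 : (c + 1 + 1).choose 2 = (c + 1) + (c + 1).choose 2 := by
      rw [Nat.choose_succ_succ' (c + 1) 1, Nat.choose_one_right]
    have h2 : (c + 1).choose 2 = c + c.choose 2 := by
      rw [Nat.choose_succ_succ' c 1, Nat.choose_one_right]
    rw [h1]
    nlinarith

theorem choose_two_sub (c : ℕ) : (c + 1).choose 2 = c + c.choose 2 := by
  rw [Nat.choose_succ_succ' c 1, Nat.choose_one_right]

/-- multiplicity of the zeta function -/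
def mz (g m : ℕ) : ℕ := (g.choose m + 1).choose 2

/-- multiplicity of the L-function of the character modulo 4 -/
def mc (g m : ℕ) : ℕ := (g.choose m).choose 2

theorem mz_add_mc (g m : ℕ) : mz g m + mc g m = g.choose m ^ 2 := choose_two_add _

theorem odd_even (g m : ℕ) : ∑ l ∈ range m, (if Even l then me g m (l + 1) else 0) =
    mc g m + ∑ l ∈ range m, (if Even l then 0 else me g m (l + 1)) := by
  have h := alt_me g m
  have h1 : ∑ l ∈ range m, (-1 : ℤ) ^ (l + 1) * (me g m (l + 1) : ℤ) =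
      ((∑ l ∈ range m, (if Even l then 0 else me g m (l + 1)) : ℕ) : ℤ) -
        ((∑ l ∈ range m, (if Even l then me g m (l + 1) else 0) : ℕ) : ℤ) := by
    push_cast
    rw [← sum_sub_distrib]
    refine sum_congr rfl fun l _ => ?_
    split_ifs with hl
    · rw [pow_succ, hl.neg_one_pow]
      push_cast
      ring
    · rw [pow_succ, (Nat.not_even_iff_odd.1 hl).neg_one_pow]
      push_cast
      ring
  have h2 := mz_add_mc g m
  have h3 : mz g m = g.choose m + mc g m := choose_two_sub _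
  rw [h1] at h
  obtain ⟨So, hSo⟩ : ∃ S, S = ∑ l ∈ range m, (if Even l then me g m (l + 1) else 0) := ⟨_, rfl⟩
  obtain ⟨Se, hSe⟩ : ∃ S, S = ∑ l ∈ range m, (if Even l then 0 else me g m (l + 1)) := ⟨_, rfl⟩
  rw [← hSo, ← hSe] at h
  rw [← hSo, ← hSe]
  zify at h2 h3 ⊢
  linarith

/-- the factor at an inert prime -/
theorem inert_factor {K : Type*} [CommRing K] (g m : ℕ) (Y : K) :
    (1 - Y) ^ (g.choose m ^ 2) * ∏ l ∈ range m, ((1 - (-1) ^ (l + 1) * Y) * (1 - (-1) ^ (l + 1) * Y)) ^ me g m (l + 1) =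
      (1 - Y) ^ mz g m * (1 + Y) ^ mc g m * ∏ l ∈ range m, (1 - Y ^ 2) ^ me g m (l + 1) := by
  have h1 : ∀ l ∈ range m, ((1 - (-1) ^ (l + 1) * Y) * (1 - (-1) ^ (l + 1) * Y)) ^ me g m (l + 1) =
      (1 - Y) ^ (2 * (if Even l then 0 else me g m (l + 1))) *
        (1 + Y) ^ (2 * (if Even l then me g m (l + 1) else 0)) := by
    intro l _
    split_ifs with hl
    · rw [pow_succ, hl.neg_one_pow, mul_zero, pow_zero, one_mul, pow_mul]
      ring
    · rw [pow_succ, (Nat.not_even_iff_odd.1 hl).neg_one_pow, mul_zero, pow_zero, mul_one, pow_mul]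
      ring
  have h2 : ∀ l ∈ range m, (1 - Y ^ 2) ^ me g m (l + 1) = (1 - Y) ^ me g m (l + 1) * (1 + Y) ^ me g m (l + 1) := by
    intro l _
    rw [← mul_pow]
    congr 1
    ring
  rw [prod_congr rfl h1, prod_congr rfl h2, prod_mul_distrib, prod_mul_distrib, prod_pow_eq_pow_sum,
    prod_pow_eq_pow_sum, prod_pow_eq_pow_sum, prod_pow_eq_pow_sum, ← mul_sum, ← mul_sum]
  have k1 := odd_even g m
  have k2 := mz_add_mc g m
  obtain ⟨So, hSo⟩ : ∃ S, S = ∑ l ∈ range m, (if Even l then me g m (l + 1) else 0) := ⟨_, rfl⟩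
  obtain ⟨Se, hSe⟩ : ∃ S, S = ∑ l ∈ range m, (if Even l then 0 else me g m (l + 1)) := ⟨_, rfl⟩
  have k3 : ∑ l ∈ range m, me g m (l + 1) = So + Se := by
    rw [hSo, hSe, ← sum_add_distrib]
    refine sum_congr rfl fun l _ => ?_
    split_ifs <;> simp
  rw [← hSo, ← hSe] at k1
  rw [← hSo, ← hSe, k3]
  have e1 : (1 - Y) ^ (g.choose m ^ 2) * ((1 - Y) ^ (2 * Se) * (1 + Y) ^ (2 * So)) =
      (1 - Y) ^ (g.choose m ^ 2 + 2 * Se) * (1 + Y) ^ (2 * So) := by
    rw [pow_add]
    ring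
  have e2 : (1 - Y) ^ mz g m * (1 + Y) ^ mc g m * ((1 - Y) ^ (So + Se) * (1 + Y) ^ (So + Se)) =
      (1 - Y) ^ (mz g m + (So + Se)) * (1 + Y) ^ (mc g m + (So + Se)) := by
    rw [pow_add, pow_add (1 + Y)]
    ring
  rw [e1, e2]
  congr 2 <;> omega

end Pool.Agent.X293.EV
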