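import Pool.Agent.W354.FK.Binom

set_option autoImplicit false

/-!
# The multiplicities `C(g, m-l) C(g, m+2+l)`, `2 m + 2 ≤ g`
-/

open Filter Topology Set

namespace Pool.Agent.X293.EV

open Pool.Agent.W354.FK (Wt)

/-- `C(g, m-l) C(g, m+2+l)` for `l ≤ m`, and `0` for `l > m` -/
noncomputable def cH (g m l : ℕ) : ℝ :=
  if l ≤ m then ((g.choose (m - l) * g.choose (m + 2 + l) : ℕ) : ℝ) else 0

theorem cH_nonneg (g m l : ℕ) : 0 ≤ cH g m l := by
  unfold cH
  split_ifs <;> positivity

theorem cH_step (g m l : ℕ) (hg : 2 * m + 2 ≤ g) (h : l < m) :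
    cH g m (l + 1) * (((g : ℝ) - m + l + 1) * (m + l + 3)) =
      cH g m l * ((m - l) * (g - m - 2 - l)) := by
  obtain ⟨k, rfl⟩ : ∃ k, m = k + 1 + l := ⟨m - 1 - l, by omega⟩
  obtain ⟨e, rfl⟩ : ∃ e, g = 2 * (k + 1 + l) + 2 + e := ⟨g - (2 * (k + 1 + l) + 2), by omega⟩
  set g := 2 * (k + 1 + l) + 2 + e with hg'
  unfold cH
  rw [if_pos (show l + 1 ≤ k + 1 + l by omega), if_pos (show l ≤ k + 1 + l by omega)]
  have h1 : k + 1 + l - (l + 1) = k := by omega
  have h2 : k + 1 + l - l = k + 1 := by omega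
  have h3 : k + 1 + l + 2 + (l + 1) = (k + 1 + l + 2 + l) + 1 := by omega
  rw [h1, h2, h3]
  have e1 := Nat.choose_succ_right_eq g k
  have e2 := Nat.choose_succ_right_eq g (k + 1 + l + 2 + l)
  have e3 : g - k = k + 2 * l + 4 + e := by omega
  have e4 : g - (k + 1 + l + 2 + l) = k + 1 + e := by omega
  rw [e3] at e1
  rw [e4] at e2
  have f1 : ((g.choose (k + 1) : ℕ) : ℝ) * (k + 1) = (g.choose k : ℕ) * (k + 2 * l + 4 + e) := by
    exact_mod_cast e1
  have f2 : ((g.choose (k + 1 + l + 2 + l + 1) : ℕ) : ℝ) * (k + 1 + l + 2 + l + 1) =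
      (g.choose (k + 1 + l + 2 + l) : ℕ) * (k + 1 + e) := by
    exact_mod_cast e2
  have hgr : (g : ℝ) = 2 * (k + 1 + l) + 2 + e := by rw [hg']; push_cast; ring
  push_cast
  rw [hgr]
  have a1 : (2 * ((k : ℝ) + 1 + l) + 2 + e - (k + 1 + l) + l + 1) = k + 2 * l + 4 + e := by ring
  have a2 : ((k : ℝ) + 1 + l + l + 3) = k + 1 + l + 2 + l + 1 := by ring
  have a3 : ((k : ℝ) + 1 + l - l) = k + 1 := by ring
  have a4 : (2 * ((k : ℝ) + 1 + l) + 2 + e - (k + 1 + l) - 2 - l) = k + 1 + e := by ring
  rw [a1, a2, a3, a4]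
  calc ((g.choose k : ℕ) : ℝ) * (g.choose (k + 1 + l + 2 + l + 1) : ℕ) *
        ((k + 2 * l + 4 + e) * (k + 1 + l + 2 + l + 1)) =
        (((g.choose k : ℕ) : ℝ) * (k + 2 * l + 4 + e)) *
          (((g.choose (k + 1 + l + 2 + l + 1) : ℕ) : ℝ) * (k + 1 + l + 2 + l + 1)) := by ring
    _ = _ := by rw [← f1, f2]; ring

/-- the quotient of consecutive weights -/
theorem cH_ratio (g m l : ℕ) (hg : 2 * m + 2 ≤ g) (h : l < m) :
    cH g m (l + 1) ≤ cH g m l * (((m : ℝ) - l) / (m + l + 3)) ∧
      cH g m l * (((m : ℝ) - l) / (m + l + 3)) ^ 2 ≤ cH g m (l + 1) := by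
  have h1 := cH_step g m l hg h
  have hc := cH_nonneg g m l
  have hl : (0 : ℝ) ≤ l := Nat.cast_nonneg l
  have hlm : (l : ℝ) + 1 ≤ m := by exact_mod_cast h
  have hgm : 2 * (m : ℝ) + 2 ≤ g := by exact_mod_cast hg
  have hA : 0 < (g : ℝ) - m + l + 1 := by linarith
  have hB : 0 < (m : ℝ) + l + 3 := by linarith
  have hr : 0 ≤ ((m : ℝ) - l) / (m + l + 3) := div_nonneg (by linarith) hB.le
  have h2 : cH g m (l + 1) = cH g m l * (((m : ℝ) - l) / (m + l + 3)) *
      ((g - m - 2 - l) / (g - m + l + 1)) := by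
    field_simp
    linarith
  have h3 : ((g : ℝ) - m - 2 - l) / (g - m + l + 1) ≤ 1 := by
    rw [div_le_one hA]; linarith
  have h4 : ((m : ℝ) - l) / (m + l + 3) ≤ ((g : ℝ) - m - 2 - l) / (g - m + l + 1) := by
    rw [div_le_div_iff₀ hB hA]
    nlinarith
  constructor
  · rw [h2]
    exact mul_le_of_le_one_right (mul_nonneg hc hr) h3
  · rw [h2, sq, ← mul_assoc]
    exact mul_le_mul_of_nonneg_left h4 (mul_nonneg hc hr)

theorem cH_anti (g m : ℕ) (hg : 2 * m + 2 ≤ g) : Antitone (cH g m) := by
  refine antitone_nat_of_succ_le (fun l => ?_)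
  by_cases h : l < m
  · refine (cH_ratio g m l hg h).1.trans ?_
    have hl : (0 : ℝ) ≤ l := Nat.cast_nonneg l
    refine mul_le_of_le_one_right (cH_nonneg g m l) ?_
    rw [div_le_one (by positivity)]
    linarith
  · have : cH g m (l + 1) = 0 := by
      unfold cH
      rw [if_neg (by omega)]
    rw [this]
    exact cH_nonneg g m l

theorem cH_wt (g m : ℕ) (hg : 2 * m + 2 ≤ g) : Wt m (cH g m) where
  nn := cH_nonneg g m
  zero := fun l hl => by
    unfold cH
    rw [if_neg (by omega)]
  anti := cH_anti g m hg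
  up := by
    intro l
    induction l with
    | zero => simp
    | succ l ih =>
      by_cases h : l < m
      · have hl : (0 : ℝ) ≤ l := Nat.cast_nonneg l
        have hlm : (l : ℝ) + 1 ≤ m := by exact_mod_cast h
        have hm : (0 : ℝ) < 2 * m + 2 := by positivity
        have hml : (0 : ℝ) < m + l + 3 := by positivity
        have h3 : ((m : ℝ) - l) / (m + l + 3) ≤ Real.exp (-(2 * l + 1) / (2 * m + 2)) := by
          have h4 := Real.add_one_le_exp (-(2 * (l : ℝ) + 1) / (2 * m + 2))
          refine le_trans ?_ h4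
          rw [div_le_iff₀ hml]
          have h5 : (-(2 * (l : ℝ) + 1) / (2 * m + 2) + 1) * (m + l + 3) =
              (m + l + 3) - (2 * l + 1) * ((m + l + 3) / (2 * m + 2)) := by
            field_simp
            ring
          rw [h5]
          have h6 : ((m : ℝ) + l + 3) / (2 * m + 2) ≤ 1 := by
            rw [div_le_one hm]; linarith
          have h7 : (2 * (l : ℝ) + 1) * ((m + l + 3) / (2 * m + 2)) ≤ (2 * l + 1) * 1 :=
            mul_le_mul_of_nonneg_left h6 (by positivity)
          linarith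
        refine (cH_ratio g m l hg h).1.trans ?_
        calc cH g m l * (((m : ℝ) - l) / (m + l + 3)) ≤
            (Real.exp (-(l : ℝ) ^ 2 / (2 * m + 2)) * cH g m 0) *
              Real.exp (-(2 * l + 1) / (2 * m + 2)) := by
              refine mul_le_mul ih h3 ?_ (mul_nonneg (Real.exp_pos _).le (cH_nonneg g m 0))
              exact div_nonneg (by linarith) hml.le
          _ = Real.exp (-(l : ℝ) ^ 2 / (2 * m + 2) + -(2 * l + 1) / (2 * m + 2)) *
              cH g m 0 := by
              rw [Real.exp_add]; ring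
          _ = _ := by
              congr 2
              push_cast
              ring
      · have : cH g m (l + 1) = 0 := by
          unfold cH
          rw [if_neg (by omega)]
        rw [this]
        have := cH_nonneg g m 0
        positivity
  low := by
    intro l hlow
    have hc0 := cH_nonneg g m 0
    have key : ∀ l : ℕ, l ≤ m → (1 - (l : ℝ) * (4 * l + 6) / m) * cH g m 0 ≤ cH g m l := by
      intro l
      induction l with
      | zero => intro _; simp
      | succ l ih =>
        intro h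
        have h0 := ih (by omega)
        have hl : (0 : ℝ) ≤ l := Nat.cast_nonneg l
        have hlm : (l : ℝ) + 1 ≤ m := by exact_mod_cast h
        have hm : (0 : ℝ) < m := by linarith
        have hml : (0 : ℝ) < m + l + 3 := by positivity
        have hcl := cH_nonneg g m l
        have hr := (cH_ratio g m l hg (by omega)).2
        have h3 : 1 - (2 * (l : ℝ) + 3) / m ≤ ((m : ℝ) - l) / (m + l + 3) := by
          rw [le_div_iff₀ hml]
          have h5 : (1 - (2 * (l : ℝ) + 3) / m) * (m + l + 3) = (m + l + 3) -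
            (2 * l + 3) * ((m + l + 3) / m) := by ring
          rw [h5]
          have h6 : 1 ≤ ((m : ℝ) + l + 3) / m := by
            rw [le_div_iff₀ hm]; linarith
          have h7 : (2 * (l : ℝ) + 3) * 1 ≤ (2 * l + 3) * ((m + l + 3) / m) :=
            mul_le_mul_of_nonneg_left h6 (by positivity)
          linarith
        have h4 : 1 - (4 * (l : ℝ) + 6) / m ≤ (((m : ℝ) - l) / (m + l + 3)) ^ 2 := by
          have hρ : 0 ≤ ((m : ℝ) - l) / (m + l + 3) := div_nonneg (by linarith) hml.le
          have h8 : 1 - (4 * (l : ℝ) + 6) / m = 1 - 2 * ((2 * (l : ℝ) + 3) / m) := by ring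
          rw [h8]
          nlinarith [sq_nonneg (((m : ℝ) - l) / (m + l + 3) - 1)]
        have h8 : cH g m l ≤ cH g m 0 := cH_anti g m hg (Nat.zero_le l)
        have h10 : cH g m l * (1 - (4 * l + 6) / m) ≤
            cH g m l * (((m : ℝ) - l) / (m + l + 3)) ^ 2 :=
          mul_le_mul_of_nonneg_left h4 hcl
        refine le_trans ?_ (h10.trans hr)
        have h11 : cH g m l * ((4 * l + 6) / m) ≤ cH g m 0 * ((4 * l + 6) / m) :=
          mul_le_mul_of_nonneg_right h8 (by positivity)
        have h12 : (1 - ((l + 1 : ℕ) : ℝ) * (4 * ((l + 1 : ℕ) : ℝ) + 6) / m) * cH g m 0 ≤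
            (1 - (l : ℝ) * (4 * l + 6) / m) * cH g m 0 - cH g m 0 * ((4 * l + 6) / m) := by
          push_cast
          have e : (1 - ((l : ℝ) + 1) * (4 * (l + 1) + 6) / m) * cH g m 0 =
              (1 - (l : ℝ) * (4 * l + 6) / m) * cH g m 0 - cH g m 0 * ((4 * l + 6) / m) -
                cH g m 0 * ((4 * l + 4) / m) := by
            field_simp
            ring
          rw [e]
          have : 0 ≤ cH g m 0 * ((4 * l + 4) / m) := by positivity
          linarith
        linarith
    by_cases hl0 : l = 0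
    · rw [hl0]
      linarith
    have hl1 : 1 ≤ l := Nat.one_le_iff_ne_zero.mpr hl0
    have hlm : l ≤ m := by nlinarith
    have h1 := key l hlm
    have hm : (0 : ℝ) < m := by
      have : 0 < m := by omega
      exact_mod_cast this
    have hl1' : (1 : ℝ) ≤ l := by exact_mod_cast hl1
    have h' : 16 * (l : ℝ) ^ 2 ≤ m := by exact_mod_cast hlow
    have h2 : (l : ℝ) * (4 * l + 6) / m ≤ 5 / 8 := by
      rw [div_le_iff₀ hm]
      nlinarith
    refine le_trans ?_ h1
    have h3 : 3 / 8 * cH g m 0 ≤ (1 - (l : ℝ) * (4 * l + 6) / m) * cH g m 0 :=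
      mul_le_mul_of_nonneg_right (by linarith) hc0
    linarith

end Pool.Agent.X293.EV
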