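import Pool.Agent.X293.EV.Eul
import Pool.Agent.X293.EV.Nz
import Pool.Agent.X293.EV.Wtd
import Pool.Agent.X293.EV.Wts
import Pool.Agent.H385R2.DirU
import Pool.Agent.H385R2.LocalU
import Pool.Agent.H300R2.HWCount

set_option autoImplicit false

/-!
# Counting the zeros of `L(2m; E^g, s)`
-/

open Complex Filter Topology Set MeasureTheory
open H370 (zset mult NN Nd Ns)

set_option maxHeartbeats 4000000

namespace Pool.Agent.X293.EV

open Pool.Agent.W354.PK (HCk LK aK bK lck lck_logC goodK)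
open Pool.Agent.H304R3.HK (tc one_le_norm_tc tc_star_mul)
open Pool.Agent.W354.FK (Wt)
open Pool.Agent.W354.HW (cnt cnt_prod cnt_eq_sum zeros_prod_finite strip line zset_eq NN_eq Ns_le)

/-- the number of the zeros of the L-functions of the characters modulo 4 -/
theorem dir_count : ∃ C : ℝ, 0 < C ∧ ∀ (χ : DirichletCharacter ℂ 4) (T : ℝ), 4 ≤ T →
    (NN χ.LFunction T (2 * T) : ℝ) ≤ C * (T * Real.log T) := by
  obtain ⟨A, hA, hg⟩ := H385.good_LF
  obtain ⟨C, hC, hz⟩ := H385.zcount_long A hA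
  refine ⟨C * (5 / 2), by positivity, fun χ T hT => ?_⟩
  have hc : χ.conductor ≠ 0 := χ.conductor_ne_zero
  have hc1 : (1 : ℝ) ≤ χ.conductor := by exact_mod_cast Nat.one_le_iff_ne_zero.2 hc
  have hc4 : (χ.conductor : ℝ) ≤ 4 := by
    exact_mod_cast Nat.le_of_dvd (by norm_num) χ.conductor_dvd_level
  have h1 := hz χ.conductor _ _ hc1 (hg 4 χ (by norm_num)) T (2 * T) (by linarith) (by linarith)
  have h2 := (H385.LF_counts 4 (by norm_num) χ T (2 * T) (by linarith)).1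
  rw [H300.HW.LF_eq 4 χ] at h2
  rw [h2]
  refine h1.trans ?_
  have hT0 : 0 < T := by linarith
  have hlog : Real.log (χ.conductor * (2 * T)) ≤ 5 / 2 * Real.log T := by
    have e1 : Real.log (χ.conductor * (2 * T)) ≤ Real.log (8 * T) := by
      refine Real.log_le_log (by positivity) ?_
      nlinarith
    have e2 : Real.log (8 * T) = Real.log 8 + Real.log T := Real.log_mul (by norm_num) hT0.ne'
    have e3 : Real.log 8 = 3 / 2 * Real.log 4 := by
      have h8 : (8 : ℝ) = 2 ^ (3 : ℕ) := by norm_num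
      have h4 : (4 : ℝ) = 2 ^ (2 : ℕ) := by norm_num
      rw [h8, h4, Real.log_pow, Real.log_pow]
      push_cast
      ring
    have e4 : Real.log 4 ≤ Real.log T := Real.log_le_log (by norm_num) hT
    linarith
  have e5 : C * (2 * T - T) * Real.log (χ.conductor * (2 * T)) = (C * T) * Real.log (χ.conductor * (2 * T)) := by
    ring
  rw [e5]
  calc (C * T) * Real.log (χ.conductor * (2 * T)) ≤ (C * T) * (5 / 2 * Real.log T) :=
        mul_le_mul_of_nonneg_left hlog (by positivity)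
    _ = C * (5 / 2) * (T * Real.log T) := by ring

theorem dir_an (χ : DirichletCharacter ℂ 4) {s : ℂ} (hs : s ≠ 1) : AnalyticAt ℂ χ.LFunction s := by
  rw [← H300.HW.LF_eq 4 χ]
  exact H385.LF_analyticAt 4 χ hs

theorem dir_fin (χ : DirichletCharacter ℂ 4) {T : ℝ} (hT : 0 < T) :
    (zset χ.LFunction T (2 * T)).Finite := by
  have hc : χ.conductor ≠ 0 := χ.conductor_ne_zero
  have : NeZero χ.conductor := ⟨hc⟩
  have hg := H370.good_dirichlet χ.primitiveCharacter χ.primitiveCharacter_isPrimitive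
  have h2 := H385.LF_zset_eq 4 (by norm_num) χ T (2 * T) hT.le
  rw [H300.HW.LF_eq, H300.HW.LF_eq] at h2
  rw [h2]
  exact H370.zset_finite' hg T (2 * T) (by linarith)

/-! ### the Hecke L-functions without the factor at two -/

/-- the inverse of the factor at two -/
noncomputable def E2 (k : ℕ) (s : ℂ) : ℂ := 1 - h2 k * (2 : ℂ) ^ (-s)

theorem E2_diff (k : ℕ) : Differentiable ℂ (E2 k) := by
  unfold E2
  intro s
  exact (differentiableAt_const _).sub ((differentiableAt_const _).mul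
    (DifferentiableAt.const_cpow (by fun_prop) (Or.inl (by norm_num))))

theorem E2_ne {k : ℕ} (hk : Even k) {s : ℂ} (hs : 0 < s.re) : E2 k s ≠ 0 := by
  unfold E2
  intro h0
  have h1 : h2 k * (2 : ℂ) ^ (-s) = 1 := (sub_eq_zero.1 h0).symm
  have e1 : ‖(2 : ℂ) ^ (-s)‖ < 1 := by
    have := Complex.norm_natCast_cpow_of_pos (n := 2) (by norm_num) (-s)
    push_cast at this
    rw [this, Complex.neg_re]
    exact Real.rpow_lt_one_of_one_lt_of_neg (by norm_num) (by linarith)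
  have h3 : ‖h2 k * (2 : ℂ) ^ (-s)‖ < 1 := by
    rw [norm_mul]
    calc ‖h2 k‖ * ‖(2 : ℂ) ^ (-s)‖ ≤ 1 * ‖(2 : ℂ) ^ (-s)‖ :=
          mul_le_mul_of_nonneg_right (h2_norm hk) (norm_nonneg _)
      _ < 1 := by rwa [one_mul]
  rw [h1, norm_one] at h3
  exact lt_irrefl _ h3

theorem FF_diff {k : ℕ} (hk : Even k) (hk0 : k ≠ 0) : Differentiable ℂ (FF k) := by
  obtain ⟨A, hA, hgood⟩ := goodK
  exact (hgood k (qe k) (ce k) (by omega) (ce_HC hk)).1

theorem FF_fin {k : ℕ} (hk : Even k) (hk0 : k ≠ 0) (T1 T2 : ℝ) (hT : 1 ≤ T1) :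
    (zset (FF k) T1 T2).Finite := by
  obtain ⟨A, hA, hgood⟩ := goodK
  exact Pool.Agent.W354.E.zset_finite_E hA
    (lck_logC k (one_le_norm_tc (ce_HC hk).q0))
    (hgood k (qe k) (ce k) (by omega) (ce_HC hk)).2.2.2 T1 T2 hT

theorem FF_order {k : ℕ} (hk : Even k) (hk0 : k ≠ 0) (s : ℂ) : analyticOrderAt (FF k) s ≠ ⊤ := by
  obtain ⟨A, hA, hgood⟩ := goodK
  have hG := (hgood k (qe k) (ce k) (by omega) (ce_HC hk)).2.2.2
  refine H370.Loc.order_ne_top (K := Set.univ) isPreconnected_univ (c := ⟨2, 1⟩)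
    (fun z _ => (FF_diff hk hk0).analyticAt z) (Set.mem_univ _) ?_ (Set.mem_univ _)
  exact hG.nzr ⟨2, 1⟩ (by norm_num) (by norm_num)

/-- the factors of `Fev` -/
noncomputable def fam : ℕ → ℂ → ℂ
  | 0 => c1.LFunction
  | 1 => c4.LFunction
  | (l + 2) => fun s => FF (2 * (l + 1)) s * E2 (2 * (l + 1)) s

/-- the multiplicities -/
def mul (g m : ℕ) : ℕ → ℕ
  | 0 => mz g m
  | 1 => mc g m
  | (l + 2) => me g m (l + 1)

theorem Fev_eq (g m : ℕ) : Fev g m = fun s => ∏ i ∈ Finset.range (m + 2), fam i s ^ mul g m i := by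
  funext s
  rw [Finset.prod_range_succ', Finset.prod_range_succ']
  unfold Fev
  simp only [fam, mul, E2]
  ring

theorem fam_an (i : ℕ) {s : ℂ} (hs : s ≠ 1) : AnalyticAt ℂ (fam i) s := by
  rcases i with _ | _ | l
  · exact dir_an c1 hs
  · exact dir_an c4 hs
  · exact ((FF_diff (ev l) (by omega)).analyticAt s).mul ((E2_diff _).analyticAt s)

theorem mul_order (l : ℕ) {s : ℂ} (hs : 0 < s.re) :
    analyticOrderAt (fam (l + 2)) s = analyticOrderAt (FF (2 * (l + 1))) s := by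
  have h1 : fam (l + 2) = FF (2 * (l + 1)) * E2 (2 * (l + 1)) := rfl
  have h2 : analyticOrderAt (E2 (2 * (l + 1))) s = 0 :=
    ((E2_diff _).analyticAt s).analyticOrderAt_eq_zero.2 (E2_ne (ev l) hs)
  rw [h1, analyticOrderAt_mul ((FF_diff (ev l) (by omega)).analyticAt s) ((E2_diff _).analyticAt s), h2,
    add_zero]

theorem fam_order (i : ℕ) {s : ℂ} (h0 : 0 < s.re) (hs : 0 < s.im) : analyticOrderAt (fam i) s ≠ ⊤ := by
  rcases i with _ | _ | l
  · exact H300.HW.order_ne_top 4 c1 hs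
  · exact H300.HW.order_ne_top 4 c4 hs
  · rw [mul_order l h0]
    exact FF_order (ev l) (by omega) s

theorem fam_zero (l : ℕ) {s : ℂ} (hs : 0 < s.re) : fam (l + 2) s = 0 ↔ FF (2 * (l + 1)) s = 0 := by
  show FF (2 * (l + 1)) s * E2 (2 * (l + 1)) s = 0 ↔ _
  rw [mul_eq_zero]
  exact ⟨fun h => h.resolve_right (E2_ne (ev l) hs), Or.inl⟩

theorem fam_cnt (l : ℕ) {W : Set ℂ} (hW : ∀ s ∈ W, 0 < s.re) :
    {s : ℂ | s ∈ W ∧ fam (l + 2) s = 0} = {s : ℂ | s ∈ W ∧ FF (2 * (l + 1)) s = 0} ∧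
    cnt (fam (l + 2)) W = cnt (FF (2 * (l + 1))) W := by
  have h1 : {s : ℂ | s ∈ W ∧ fam (l + 2) s = 0} = {s : ℂ | s ∈ W ∧ FF (2 * (l + 1)) s = 0} := by
    ext s
    exact and_congr_right fun hs => fam_zero l (hW s hs)
  refine ⟨h1, ?_⟩
  unfold cnt
  rw [h1]
  refine finsum_mem_congr rfl fun s hs => ?_
  unfold mult analyticOrderNatAt
  rw [mul_order l (hW s hs.1)]

theorem fam_fin (i : ℕ) {T : ℝ} (hT : 1 ≤ T) : {s : ℂ | s ∈ strip T (2 * T) ∧ fam i s = 0}.Finite := by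
  rcases i with _ | _ | l
  · rw [← zset_eq]
    exact dir_fin c1 (by linarith)
  · rw [← zset_eq]
    exact dir_fin c4 (by linarith)
  · rw [(fam_cnt l (W := strip T (2 * T)) fun s hs => hs.1).1, ← zset_eq]
    exact FF_fin (ev l) (by omega) T (2 * T) hT

theorem line_sub {T : ℝ} : line T (2 * T) ⊆ strip T (2 * T) := by
  rintro s ⟨h1, h2, h3⟩
  exact ⟨by rw [h1]; norm_num, by rw [h1]; norm_num, h2, h3⟩

/-- **the counts** -/
theorem Fev_counts (g m : ℕ) {T : ℝ} (hT : 1 ≤ T) :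
    {s : ℂ | s ∈ strip T (2 * T) ∧ Fev g m s = 0}.Finite ∧
    cnt (Fev g m) (strip T (2 * T)) = mz g m * NN c1.LFunction T (2 * T) + mc g m * NN c4.LFunction T (2 * T) +
      ∑ l ∈ Finset.range m, me g m (l + 1) * NN (FF (2 * (l + 1))) T (2 * T) ∧
    ∑ l ∈ Finset.range m, me g m (l + 1) * Ns (FF (2 * (l + 1))) T (2 * T) ≤
      cnt (Fev g m) (line T (2 * T)) := by
  have himS : ∀ s ∈ strip T (2 * T), 0 < s.im := fun s hs => by
    have := hs.2.2.1
    linarith
  have hne : ∀ s : ℂ, 0 < s.im → s ≠ 1 := by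
    rintro s hs rfl
    simp at hs
  have hsum : ∀ f : ℕ → ℕ, ∑ i ∈ Finset.range (m + 2), f i = f 0 + f 1 + ∑ l ∈ Finset.range m, f (l + 2) := by
    intro f
    rw [Finset.sum_range_succ', Finset.sum_range_succ']
    ring
  have hN : cnt (Fev g m) (strip T (2 * T)) = ∑ i ∈ Finset.range (m + 2), mul g m i * cnt (fam i) (strip T (2 * T)) := by
    rw [Fev_eq]
    exact cnt_prod (Finset.range (m + 2)) fam (mul g m)
      (fun i _ s hs => fam_an i (hne s (himS s hs)))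
      (fun i _ s hs => fam_order i hs.1 (himS s hs)) (fun i _ => fam_fin i hT)
  have hL : cnt (Fev g m) (line T (2 * T)) = ∑ i ∈ Finset.range (m + 2), mul g m i * cnt (fam i) (line T (2 * T)) := by
    rw [Fev_eq]
    exact cnt_prod (Finset.range (m + 2)) fam (mul g m)
      (fun i _ s hs => fam_an i (hne s (himS s (line_sub hs))))
      (fun i _ s hs => fam_order i (line_sub hs).1 (himS s (line_sub hs)))
      (fun i _ => (fam_fin i hT).subset fun s hs => ⟨line_sub hs.1, hs.2⟩)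
  refine ⟨?_, ?_, ?_⟩
  · rw [Fev_eq]
    exact zeros_prod_finite (Finset.range (m + 2)) fam (mul g m) fun i _ => fam_fin i hT
  · rw [hN, hsum]
    congr 1
    · rw [NN_eq, NN_eq]
      rfl
    · refine Finset.sum_congr rfl fun l _ => ?_
      rw [NN_eq, (fam_cnt l (W := strip T (2 * T)) fun s hs => hs.1).2]
      rfl
  · rw [hL, hsum]
    refine le_trans ?_ (Nat.le_add_left _ _)
    refine Finset.sum_le_sum fun l _ => ?_
    have h1 : mul g m (l + 2) = me g m (l + 1) := rfl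
    rw [h1, (fam_cnt l (W := line T (2 * T)) fun s hs => by rw [hs.1]; norm_num).2]
    exact Nat.mul_le_mul_left _ (Ns_le _ _ _ (FF_fin (ev l) (by omega) T (2 * T) hT))

/-! ### the multiplicities as weights -/

/-- `min m (g - m) - 1` -/
def m0 (g m : ℕ) : ℕ := min m (g - m) - 1

theorem me_eq (g m l : ℕ) (hm : 1 ≤ m) (hg : m < g) (hl : l < m) : (me g m (l + 1) : ℝ) = cH g (m0 g m) l := by
  unfold me cH
  by_cases h : 2 * m ≤ g
  · have e : m0 g m = m - 1 := by unfold m0; omega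
    rw [e, if_pos (by omega)]
    have e1 : m - 1 - l = m - (l + 1) := by omega
    have e2 : m - 1 + 2 + l = m + (l + 1) := by omega
    rw [e1, e2]
  · have e : m0 g m = g - m - 1 := by unfold m0; omega
    rw [e]
    split_ifs with h1
    · have e1 : g - m - 1 - l = g - (m + (l + 1)) := by omega
      have e2 : g - m - 1 + 2 + l = g - (m - (l + 1)) := by omega
      rw [e1, e2, Nat.choose_symm (by omega), Nat.choose_symm (by omega), mul_comm]
    · rw [Nat.choose_eq_zero_of_lt (by omega : g < m + (l + 1)), mul_zero]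
      simp

theorem m0_le (g m : ℕ) (hm : 1 ≤ m) (hg : m < g) : 2 * m0 g m + 2 ≤ g ∧ m0 g m + 1 ≤ m := by
  unfold m0
  omega

/-- the square of the middle multiplicity -/
theorem middle (g m : ℕ) (hm : 1 ≤ m) (hg : m < g) : ((g.choose m : ℝ)) ^ 2 ≤ 4 * cH g (m0 g m) 0 := by
  rw [← me_eq g m 0 hm hg (by omega)]
  unfold me
  obtain ⟨k, rfl⟩ : ∃ k, m = k + 1 := ⟨m - 1, by omega⟩
  obtain ⟨e, rfl⟩ : ∃ e, g = k + 1 + (e + 1) := ⟨g - (k + 1) - 1, by omega⟩
  set g := k + 1 + (e + 1) with hg'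
  have e0 : k + 1 - (0 + 1) = k := by omega
  have e1 : k + 1 + (0 + 1) = k + 1 + 1 := by omega
  rw [e0, e1]
  have f1 := Nat.choose_succ_right_eq g k
  have f2 := Nat.choose_succ_right_eq g (k + 1)
  have e2 : g - k = e + 2 := by omega
  have e3 : g - (k + 1) = e + 1 := by omega
  rw [e2] at f1
  rw [e3] at f2
  have g1 : ((g.choose (k + 1) : ℕ) : ℝ) * (k + 1) = (g.choose k : ℕ) * (e + 2) := by exact_mod_cast f1
  have g2 : ((g.choose (k + 1 + 1) : ℕ) : ℝ) * (k + 1 + 1) = (g.choose (k + 1) : ℕ) * (e + 1) := by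
    exact_mod_cast f2
  have hk : (0 : ℝ) ≤ k := Nat.cast_nonneg k
  have he : (0 : ℝ) ≤ e := Nat.cast_nonneg e
  set x : ℝ := ((g.choose (k + 1) : ℕ) : ℝ) with hx
  set a : ℝ := ((g.choose k : ℕ) : ℝ) with ha
  set b : ℝ := ((g.choose (k + 1 + 1) : ℕ) : ℝ) with hb
  push_cast
  have h3 : a * b * (((e : ℝ) + 2) * (k + 2)) = x ^ 2 * ((k + 1) * (e + 1)) := by
    calc a * b * (((e : ℝ) + 2) * (k + 2)) = (a * (e + 2)) * (b * (k + 1 + 1)) := by ring
      _ = (x * (k + 1)) * (x * (e + 1)) := by rw [← g1, g2]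
      _ = _ := by ring
  have h4 : ((e : ℝ) + 2) * (k + 2) ≤ 4 * ((k + 1) * (e + 1)) := by nlinarith [mul_nonneg hk he]
  have h5 : 0 < ((e : ℝ) + 2) * (k + 2) := by positivity
  have h6 : x ^ 2 * (((e : ℝ) + 2) * (k + 2)) ≤ 4 * (a * b) * (((e : ℝ) + 2) * (k + 2)) := by
    calc x ^ 2 * (((e : ℝ) + 2) * (k + 2)) ≤ x ^ 2 * (4 * ((k + 1) * (e + 1))) :=
          mul_le_mul_of_nonneg_left h4 (sq_nonneg x)
      _ = 4 * (x ^ 2 * ((k + 1) * (e + 1))) := by ring
      _ = _ := by rw [← h3]; ring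
  exact le_of_mul_le_mul_right h6 h5

/-- the sum over the weights, split modulo 4 -/
theorem sum_split (g m : ℕ) (hm : 1 ≤ m) (hg : m < g) (f : ℕ → ℝ) :
    ∑ l ∈ Finset.range m, (me g m (l + 1) : ℝ) * f l =
      ∑ j ∈ Finset.range (m0 g m + 1), cH g (m0 g m) (0 + 2 * j) * f (0 + 2 * j) +
      ∑ j ∈ Finset.range (m0 g m + 1), cH g (m0 g m) (1 + 2 * j) * f (1 + 2 * j) := by
  obtain ⟨k1, k2⟩ := m0_le g m hm hg
  rw [← Pool.Agent.W354.HW.sum_parity (fun l => cH g (m0 g m) l * f l) (m0 g m + 1)]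
  have hz : ∀ l, m0 g m < l → cH g (m0 g m) l = 0 := (cH_wt g (m0 g m) k1).zero
  have e1 : ∑ l ∈ Finset.range m, (me g m (l + 1) : ℝ) * f l =
      ∑ l ∈ Finset.range m, cH g (m0 g m) l * f l := by
    refine Finset.sum_congr rfl fun l hl => ?_
    rw [me_eq g m l hm hg (Finset.mem_range.mp hl)]
  rw [e1]
  have e2 : ∀ M, m0 g m + 1 ≤ M → ∑ l ∈ Finset.range M, cH g (m0 g m) l * f l =
      ∑ l ∈ Finset.range (m0 g m + 1), cH g (m0 g m) l * f l := by
    intro M hM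
    symm
    refine Finset.sum_subset (Finset.range_mono hM) (fun l _ hl => ?_)
    rw [Finset.mem_range, not_lt] at hl
    rw [hz l (by omega), zero_mul]
  rw [e2 m (by omega), e2 (2 * (m0 g m + 1)) (by omega)]

end Pool.Agent.X293.EV
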