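import Pool.Agent.X293.EV.Chr
import Pool.Agent.X293.EV.Bin
import Pool.Agent.W354.HW.Main

set_option autoImplicit false

/-!
# The Euler product of `L(2m; E^g, s)`
-/

open Complex Filter Topology Set

namespace Pool.Agent.X293.EV

open Pool.Agent.H304R2.EC (aE)
open Pool.Agent.W354.HW (locE)

/-- the character modulo 4, with complex values -/
noncomputable def c4 : DirichletCharacter ℂ 4 := ZMod.χ₄.ringHomComp (Int.castRingHom ℂ)

/-- the trivial character modulo 4 -/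
noncomputable def c1 : DirichletCharacter ℂ 4 := 1

theorem c4_apply (n : ZMod 4) : c4 n = ((ZMod.χ₄ n : ℤ) : ℂ) := rfl

theorem c4_one (p : ℕ) (h : p % 4 = 1) : c4 (p : ZMod 4) = 1 := by
  rw [c4_apply, ZMod.χ₄_nat_one_mod_four h]
  norm_num

theorem c4_three (p : ℕ) (h : p % 4 = 3) : c4 (p : ZMod 4) = -1 := by
  rw [c4_apply, ZMod.χ₄_nat_three_mod_four h]
  norm_num

theorem c4_two : c4 (2 : ZMod 4) = 0 := by
  rw [c4_apply]
  have : ZMod.χ₄ (2 : ZMod 4) = 0 := by decide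
  rw [this]
  norm_num

theorem c1_odd (p : ℕ) (h : p % 2 = 1) : c1 (p : ZMod 4) = 1 := by
  unfold c1
  rw [MulChar.one_apply]
  rw [ZMod.isUnit_iff_coprime]
  have h2 : Nat.Coprime p 2 := by
    rw [Nat.coprime_two_right]
    exact Nat.odd_iff.2 h
  have : Nat.Coprime p (2 ^ 2) := h2.pow_right 2
  simpa using this

theorem c1_two : c1 (2 : ZMod 4) = 0 := by
  refine MulChar.map_nonunit _ ?_
  intro h
  have h2 : IsUnit ((2 : ℕ) : ZMod 4) := by exact_mod_cast h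
  rw [ZMod.isUnit_iff_coprime] at h2
  revert h2
  decide

theorem c4_ne : c4 ≠ 1 := by
  intro h
  have h1 := c4_three 3 (by norm_num)
  rw [h] at h1
  have h2 := c1_odd 3 (by norm_num)
  unfold c1 at h2
  rw [h2] at h1
  norm_num at h1

/-- Euler product over the primes other than two -/
theorem dir_prod (χ : DirichletCharacter ℂ 4) (h2 : χ (2 : ZMod 4) = 0) {s : ℂ} (hs : 1 < s.re) :
    HasProd (fun p : {p : ℕ // p.Prime ∧ p ≠ 2} => (1 - χ ((p : ℕ) : ZMod 4) * ((p : ℕ) : ℂ) ^ (-s))⁻¹)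
      (χ.LFunction s) := by
  have h := DirichletCharacter.LSeries_eulerProduct_hasProd χ hs
  rw [← DirichletCharacter.LFunction_eq_LSeries χ hs] at h
  set g : {p : ℕ // p.Prime ∧ p ≠ 2} → Nat.Primes := fun p => ⟨p.1, p.2.1⟩ with hg
  have hginj : Function.Injective g := by
    intro a b hab
    apply Subtype.ext
    have := congrArg (fun x : Nat.Primes => (x : ℕ)) hab
    simpa [hg] using this
  have hsupp : ∀ p : Nat.Primes, p ∉ Set.range g → (1 - χ ((p : ℕ) : ZMod 4) * ((p : ℕ) : ℂ) ^ (-s))⁻¹ = 1 := by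
    intro p hp
    have h2' : (p : ℕ) = 2 := by
      by_contra h2'
      exact hp ⟨⟨p.1, p.2, h2'⟩, rfl⟩
    have h3 : χ (((2 : ℕ)) : ZMod 4) = 0 := by exact_mod_cast h2
    rw [h2', h3, zero_mul, sub_zero, inv_one]
  exact (hginj.hasProd_iff hsupp).mpr h

/-- the L-function of `H^(2m)(E^g)`, shifted to the critical line `Re s = 1/2` -/
noncomputable def Fev (g m : ℕ) (s : ℂ) : ℂ :=
  c1.LFunction s ^ mz g m * c4.LFunction s ^ mc g m *
    ∏ l ∈ Finset.range m, (FF (2 * (l + 1)) s * (1 - h2 (2 * (l + 1)) * (2 : ℂ) ^ (-s))) ^ me g m (l + 1)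

theorem ev (l : ℕ) : Even (2 * (l + 1)) := even_two_mul _

theorem hasProd_pow {ι : Type*} {f : ι → ℂ} {a : ℂ} (h : HasProd f a) (c : ℕ) :
    HasProd (fun i => f i ^ c) (a ^ c) := by
  induction c with
  | zero => simp only [pow_zero]; exact hasProd_one
  | succ c ih =>
    have := ih.mul h
    simpa only [pow_succ] using this

theorem locE_even (g m : ℕ) (α β : ℂ) (p : ℕ) (hp : p ≠ 0) (hαβ : α * β = p) (s : ℂ) :
    locE g (2 * m) α β p s = (1 - (p : ℂ) ^ (-(s - m))) ^ (g.choose m ^ 2) *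
      ∏ l ∈ Finset.range m, ((1 - α ^ (2 * (l + 1)) * (p : ℂ) ^ (-(s - m + ((2 * (l + 1) : ℕ) : ℂ) / 2))) *
        (1 - β ^ (2 * (l + 1)) * (p : ℂ) ^ (-(s - m + ((2 * (l + 1) : ℕ) : ℂ) / 2)))) ^ me g m (l + 1) := by
  have hp0 : (p : ℂ) ≠ 0 := Nat.cast_ne_zero.mpr hp
  unfold locE
  rw [prod_center]
  congr 1
  · have e1 : 2 * m - m = m := by omega
    rw [e1, ← mul_pow, hαβ, ← pow_two]
    congr 2
    rw [← Complex.cpow_natCast, ← Complex.cpow_add _ _ hp0]
    congr 1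
    ring
  · refine Finset.prod_congr rfl fun l hl => ?_
    have hl' : l < m := Finset.mem_range.1 hl
    have e1 : 2 * m - (m - (l + 1)) = m + (l + 1) := by omega
    have e2 : 2 * m - (m + (l + 1)) = m - (l + 1) := by omega
    rw [e1, e2]
    have e4 : g.choose (m + (l + 1)) * g.choose (m - (l + 1)) = me g m (l + 1) := by
      unfold me; ring
    have e5 : g.choose (m - (l + 1)) * g.choose (m + (l + 1)) = me g m (l + 1) := rfl
    rw [e4, e5, ← mul_pow]
    congr 1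
    have hX : (p : ℂ) ^ (-(s - m + ((2 * (l + 1) : ℕ) : ℂ) / 2)) = (α * β) ^ (m - (l + 1)) * (p : ℂ) ^ (-s) := by
      rw [hαβ, ← Complex.cpow_natCast, ← Complex.cpow_add _ _ hp0]
      congr 1
      rw [Nat.cast_sub (by omega : l + 1 ≤ m)]
      push_cast
      ring
    have e6 : m + (l + 1) = (m - (l + 1)) + 2 * (l + 1) := by omega
    rw [hX, e6, pow_add α, pow_add β, mul_pow]
    ring

theorem Fev_prod (g m : ℕ) (α β : ℕ → ℂ)
    (hαβ : ∀ p : ℕ, p.Prime → p ≠ 2 → α p + β p = (aE p : ℂ) ∧ α p * β p = p) (s : ℂ)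
    (hs : 1 + (m : ℝ) < s.re) :
    HasProd (fun p : {p : ℕ // p.Prime ∧ p ≠ 2} => (locE g (2 * m) (α p) (β p) p s)⁻¹)
      (Fev g m (s - m)) := by
  have hre : 1 < (s - (m : ℂ)).re := by
    rw [Complex.sub_re, Complex.natCast_re]
    linarith
  have h1 := hasProd_pow (dir_prod c1 c1_two hre) (mz g m)
  have h2 := hasProd_pow (dir_prod c4 c4_two hre) (mc g m)
  have h3 := hasProd_prod (s := Finset.range m) (fun l _ => hasProd_pow
    (euler_e (ev l) (by omega) α β hαβ (s - m) hre) (me g m (l + 1)))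
  have h4 := (h1.mul h2).mul h3
  have hfun : (fun p : {p : ℕ // p.Prime ∧ p ≠ 2} => (locE g (2 * m) (α p) (β p) p s)⁻¹) =
      fun p : {p : ℕ // p.Prime ∧ p ≠ 2} =>
        ((1 - c1 ((p : ℕ) : ZMod 4) * ((p : ℕ) : ℂ) ^ (-(s - m)))⁻¹) ^ mz g m *
        ((1 - c4 ((p : ℕ) : ZMod 4) * ((p : ℕ) : ℂ) ^ (-(s - m)))⁻¹) ^ mc g m *
        ∏ l ∈ Finset.range m, ((if (p : ℕ) % 4 = 3 then 1 - ((p : ℕ) : ℂ) ^ (-(2 * (s - m))) else
          (1 - α p ^ (2 * (l + 1)) * ((p : ℕ) : ℂ) ^ (-(s - m + ((2 * (l + 1) : ℕ) : ℂ) / 2))) *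
          (1 - β p ^ (2 * (l + 1)) * ((p : ℕ) : ℂ) ^ (-(s - m + ((2 * (l + 1) : ℕ) : ℂ) / 2))))⁻¹) ^
            me g m (l + 1) := by
    funext p
    obtain ⟨p, hp, hp2⟩ := p
    simp only
    obtain ⟨hsum, hmul⟩ := hαβ p hp hp2
    have hp0 : (p : ℂ) ≠ 0 := Nat.cast_ne_zero.mpr hp.ne_zero
    have hodd : p % 2 = 1 := hp.eq_two_or_odd.resolve_left hp2
    rw [locE_even g m _ _ p hp.ne_zero hmul s, c1_odd p hodd, one_mul]
    set Y : ℂ := (p : ℂ) ^ (-(s - m)) with hY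
    have hinv : ∀ (P : ℕ → ℂ), ∏ l ∈ Finset.range m, ((P l)⁻¹) ^ me g m (l + 1) =
        (∏ l ∈ Finset.range m, (P l) ^ me g m (l + 1))⁻¹ := by
      intro P
      rw [← Finset.prod_inv_distrib]
      refine Finset.prod_congr rfl fun l _ => inv_pow _ _
    rw [hinv, inv_pow, inv_pow, ← mul_inv, ← mul_inv]
    congr 1
    by_cases h3 : p % 4 = 3
    · rw [c4_three p h3]
      simp only [if_pos h3]
      have hs0 : α p + β p = 0 := by
        rw [hsum, Pool.Agent.H304R2.EC.aE_eq p hp hp2, Pool.Agent.H304R2.EC.an_inert p hp h3, Int.cast_zero]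
      have hβ : β p = -α p := (neg_eq_of_add_eq_zero_right hs0).symm
      have hα2 : α p ^ 2 = -(p : ℂ) := by
        rw [hβ] at hmul
        linear_combination -hmul
      have hb2 : β p ^ 2 = -(p : ℂ) := by rw [hβ, neg_sq, hα2]
      have hE : ∀ l : ℕ, (-(p : ℂ)) ^ (l + 1) * (p : ℂ) ^ (-(s - m + ((2 * (l + 1) : ℕ) : ℂ) / 2)) =
          (-1) ^ (l + 1) * Y := by
        intro l
        have e1 : (p : ℂ) ^ (-(s - m + ((2 * (l + 1) : ℕ) : ℂ) / 2)) = Y * ((p : ℂ) ^ (l + 1))⁻¹ := by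
          rw [hY, ← Complex.cpow_natCast, ← Complex.cpow_neg, ← Complex.cpow_add _ _ hp0]
          congr 1
          push_cast
          ring
        have e2 : (p : ℂ) ^ (l + 1) ≠ 0 := pow_ne_zero _ hp0
        rw [e1, neg_pow]
        field_simp
      have e2 : (p : ℂ) ^ (-(2 * (s - m))) = Y ^ 2 := by
        rw [hY, ← Complex.cpow_nat_mul]
        congr 1
        push_cast
        ring
      have e3 : ∀ l ∈ Finset.range m,
          ((1 - α p ^ (2 * (l + 1)) * (p : ℂ) ^ (-(s - m + ((2 * (l + 1) : ℕ) : ℂ) / 2))) *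
          (1 - β p ^ (2 * (l + 1)) * (p : ℂ) ^ (-(s - m + ((2 * (l + 1) : ℕ) : ℂ) / 2)))) ^ me g m (l + 1) =
          ((1 - (-1) ^ (l + 1) * Y) * (1 - (-1) ^ (l + 1) * Y)) ^ me g m (l + 1) := by
        intro l _
        rw [pow_mul, pow_mul, hα2, hb2, hE]
      rw [Finset.prod_congr rfl e3, e2, inert_factor]
      congr 2
      ring
    · have h1 : p % 4 = 1 := by omega
      rw [c4_one p h1, one_mul]
      simp only [if_neg h3]
      rw [← pow_add, mz_add_mc]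
  rw [hfun]
  exact h4

end Pool.Agent.X293.EV
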