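import Pool.Agent.X293.EV.Cnt

set_option autoImplicit false

/-!
# The zeros of `L(2m; E^g, s)`: the main inequality, and the pole
-/

open Complex Filter Topology Set MeasureTheory
open H370 (zset mult NN Nd Ns)

set_option maxHeartbeats 4000000

namespace Pool.Agent.X293.EV

open Pool.Agent.W354.PK (HCk LK aK bK lck lck_logC goodK)
open Pool.Agent.H304R3.HK (tc one_le_norm_tc tc_star_mul)
open Pool.Agent.W354.FK (Wt)
open Pool.Agent.W354.HW (cnt strip line)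

theorem FF_a0 (j : ℕ) : FF (2 * (0 + 2 * j + 1)) = LK (2 + 4 * j) (ce 2) := by
  have e : 2 * (0 + 2 * j + 1) = 2 + 4 * j := by ring
  unfold FF
  rw [e, ce_two (by omega : (2 + 4 * j) % 4 = 2), ce_two (by norm_num : 2 % 4 = 2)]

theorem FF_a1 (j : ℕ) : FF (2 * (1 + 2 * j + 1)) = LK (4 + 4 * j) (ce 4) := by
  have e : 2 * (1 + 2 * j + 1) = 4 + 4 * j := by ring
  unfold FF
  rw [e, ce_zero (by omega : (4 + 4 * j) % 4 = 0), ce_zero (by norm_num : 4 % 4 = 0)]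

theorem tc_q2 : ‖tc (qe 2)‖ ≤ 2 := by
  have e : qe 2 = ⟨2, 0⟩ := by decide
  rw [e]
  simp [tc]

theorem tc_q4 : ‖tc (qe 4)‖ ≤ 2 := by
  have e : qe 4 = ⟨1, 0⟩ := by decide
  rw [e]
  simp [tc]

theorem main_even : ∃ T0 η : ℝ, 4 ≤ T0 ∧ 0 < η ∧ ∀ (g m : ℕ) (T : ℝ), 1 ≤ m → m < g → T0 ≤ T →
    ((min (2 * m) (2 * g - 2 * m) : ℕ) : ℝ) ^ (1 / 2 - η) ≤ T →
    T ≤ ((min (2 * m) (2 * g - 2 * m) : ℕ) : ℝ) ^ (1 / 2 + η) →
    0.6725 * (cnt (Fev g m) (strip T (2 * T)) : ℝ) ≤ (cnt (Fev g m) (line T (2 * T)) : ℝ) ∧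
    0 < cnt (Fev g m) (strip T (2 * T)) := by
  obtain ⟨e', he', H⟩ := ev_weighted
  obtain ⟨C, hC, hdir⟩ := dir_count
  set K : ℝ := 4 * C / e' with hK
  have hKp : 0 < K := by positivity
  obtain ⟨T1, η1, hT1, hη1, hη1', H1⟩ := H K
  refine ⟨max (max T1 4) (2 * 2 ^ (2 / η1)), η1 / 2, (le_max_right _ _).trans (le_max_left _ _),
    by positivity, ?_⟩
  intro g m T hm hg hT hn1 hn2
  have hTT1 : T1 ≤ T := ((le_max_left _ _).trans (le_max_left _ _)).trans hT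
  have hT4 : 4 ≤ T := ((le_max_right _ _).trans (le_max_left _ _)).trans hT
  have hTe : 2 * (2 : ℝ) ^ (2 / η1) ≤ T := (le_max_right _ _).trans hT
  have hTp : 0 < T := by linarith
  have hT1' : 1 ≤ T := by linarith
  have hlT : 0 < Real.log T := Real.log_pos (by linarith)
  have hTl : 0 < T * Real.log T := by positivity
  obtain ⟨k1, k2⟩ := m0_le g m hm hg
  have hmin : min (2 * m) (2 * g - 2 * m) = 2 * m0 g m + 2 := by
    unfold m0; omega
  rw [hmin] at hn1 hn2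
  set n : ℝ := ((2 * m0 g m + 2 : ℕ) : ℝ) with hn
  set x : ℝ := ((2 * m0 g m + 1 : ℕ) : ℝ) with hx
  have hxn : x ≤ n := by
    rw [hx, hn]
    exact_mod_cast (by omega : 2 * m0 g m + 1 ≤ 2 * m0 g m + 2)
  have hx1 : 1 ≤ x := by
    rw [hx]
    exact_mod_cast (by omega : 1 ≤ 2 * m0 g m + 1)
  have hn1' : 1 ≤ n := hx1.trans hxn
  have hn2x : n ≤ 2 * x := by
    rw [hx, hn]
    exact_mod_cast (by omega : 2 * m0 g m + 2 ≤ 2 * (2 * m0 g m + 1))
  -- the conditions on `T`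
  have c1 : x ^ (1 / 2 - η1) ≤ T := by
    calc x ^ (1 / 2 - η1) ≤ n ^ (1 / 2 - η1) := Real.rpow_le_rpow (by linarith) hxn (by linarith)
      _ ≤ n ^ (1 / 2 - η1 / 2) := Real.rpow_le_rpow_of_exponent_le hn1' (by linarith)
      _ ≤ T := hn1
  have hTn : T ≤ n := by
    refine hn2.trans ?_
    calc n ^ (1 / 2 + η1 / 2) ≤ n ^ (1 : ℝ) := Real.rpow_le_rpow_of_exponent_le hn1' (by linarith)
      _ = n := Real.rpow_one n
  have hxT : (2 : ℝ) ^ (2 / η1) ≤ x := by linarith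
  have hx2 : 2 ≤ x ^ (η1 / 2) := by
    have h1 := Real.rpow_le_rpow (by positivity) hxT (by positivity : 0 ≤ η1 / 2)
    rw [← Real.rpow_mul (by norm_num)] at h1
    have e : 2 / η1 * (η1 / 2) = 1 := by field_simp
    rwa [e, Real.rpow_one] at h1
  have c2 : T ≤ x ^ (1 / 2 + η1) := by
    refine hn2.trans ?_
    calc n ^ (1 / 2 + η1 / 2) ≤ (2 * x) ^ (1 / 2 + η1 / 2) :=
          Real.rpow_le_rpow (by linarith) hn2x (by positivity)
      _ = 2 ^ (1 / 2 + η1 / 2) * x ^ (1 / 2 + η1 / 2) := Real.mul_rpow (by norm_num) (by linarith)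
      _ ≤ 2 * x ^ (1 / 2 + η1 / 2) := by
          refine mul_le_mul_of_nonneg_right ?_ (Real.rpow_nonneg (by linarith) _)
          calc (2 : ℝ) ^ (1 / 2 + η1 / 2) ≤ 2 ^ (1 : ℝ) :=
                Real.rpow_le_rpow_of_exponent_le (by norm_num) (by linarith)
            _ = 2 := Real.rpow_one 2
      _ ≤ x ^ (η1 / 2) * x ^ (1 / 2 + η1 / 2) :=
          mul_le_mul_of_nonneg_right hx2 (Real.rpow_nonneg (by linarith) _)
      _ = x ^ (1 / 2 + η1) := by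
          rw [← Real.rpow_add (by linarith)]
          congr 1
          ring
  have c3 : 2 ≤ T ^ η1 := by
    have hT2 : (2 : ℝ) ^ (1 / η1) ≤ T := by
      have h1 : (2 : ℝ) ^ (1 / η1) ≤ 2 ^ (2 / η1) :=
        Real.rpow_le_rpow_of_exponent_le (by norm_num) (div_le_div_of_nonneg_right (by norm_num) hη1.le)
      have h2 : (0 : ℝ) < 2 ^ (2 / η1) := by positivity
      linarith
    have h1 := Real.rpow_le_rpow (by positivity) hT2 hη1.le
    rw [← Real.rpow_mul (by norm_num)] at h1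
    have e : 1 / η1 * η1 = 1 := by field_simp
    rwa [e, Real.rpow_one] at h1
  have hw := cH_wt g (m0 g m) k1
  obtain ⟨a1, a2, -⟩ := H1 0 2 (qe 2) (ce 2) T (m0 g m) _ hw (by norm_num) (by norm_num) (by norm_num)
    (ce_HC (by decide)) hTT1 (tc_q2.trans c3) c1 c2
  obtain ⟨b1, b2, -⟩ := H1 1 4 (qe 4) (ce 4) T (m0 g m) _ hw (by norm_num) (by norm_num) (by norm_num)
    (ce_HC (by decide)) hTT1 (tc_q4.trans c3) c1 c2
  obtain ⟨-, d2, d3⟩ := Fev_counts g m hT1'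
  have s1 := sum_split g m hm hg (fun l => (NN (FF (2 * (l + 1))) T (2 * T) : ℝ))
  have s2 := sum_split g m hm hg (fun l => (Ns (FF (2 * (l + 1))) T (2 * T) : ℝ))
  simp only [FF_a0, FF_a1] at s1 s2
  set S0 : ℝ := ∑ j ∈ Finset.range (m0 g m + 1), cH g (m0 g m) (0 + 2 * j) *
    (NN (LK (2 + 4 * j) (ce 2)) T (2 * T) : ℝ) with hS0
  set S1 : ℝ := ∑ j ∈ Finset.range (m0 g m + 1), cH g (m0 g m) (1 + 2 * j) *
    (NN (LK (4 + 4 * j) (ce 4)) T (2 * T) : ℝ) with hS1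
  have hW0 : 0 < cH g (m0 g m) 0 := by
    have h1 := middle g m hm hg
    have h2 : (0 : ℝ) < (g.choose m : ℝ) := by exact_mod_cast Nat.choose_pos hg.le
    have h3 : (0 : ℝ) < (g.choose m : ℝ) ^ 2 := by positivity
    linarith
  have hS1n : 0 ≤ S1 := Finset.sum_nonneg fun j _ => mul_nonneg (cH_nonneg _ _ _) (Nat.cast_nonneg _)
  have hN1 := hdir X293.EV.c1 T hT4
  have hN2 := hdir c4 T hT4
  have hmid := middle g m hm hg
  have hadd : ((mz g m : ℝ)) + mc g m = (g.choose m : ℝ) ^ 2 := by exact_mod_cast mz_add_mc g m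
  have hmzn : (0 : ℝ) ≤ mz g m := Nat.cast_nonneg _
  have hmcn : (0 : ℝ) ≤ mc g m := Nat.cast_nonneg _
  have hsmall : (mz g m : ℝ) * (NN X293.EV.c1.LFunction T (2 * T) : ℝ) + (mc g m : ℝ) * (NN c4.LFunction T (2 * T) : ℝ) ≤
      e' * S0 := by
    calc (mz g m : ℝ) * (NN X293.EV.c1.LFunction T (2 * T) : ℝ) + (mc g m : ℝ) * (NN c4.LFunction T (2 * T) : ℝ) ≤
          (mz g m : ℝ) * (C * (T * Real.log T)) + (mc g m : ℝ) * (C * (T * Real.log T)) :=
          add_le_add (mul_le_mul_of_nonneg_left hN1 hmzn) (mul_le_mul_of_nonneg_left hN2 hmcn)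
      _ = (g.choose m : ℝ) ^ 2 * (C * (T * Real.log T)) := by rw [← hadd]; ring
      _ ≤ (4 * cH g (m0 g m) 0) * (C * (T * Real.log T)) :=
          mul_le_mul_of_nonneg_right hmid (by positivity)
      _ = e' * (cH g (m0 g m) 0 * (K * (T * Real.log T))) := by rw [hK]; field_simp
      _ ≤ e' * S0 := mul_le_mul_of_nonneg_left a2 he'.le
  have hcount : (cnt (Fev g m) (strip T (2 * T)) : ℝ) =
      (mz g m : ℝ) * (NN X293.EV.c1.LFunction T (2 * T) : ℝ) + (mc g m : ℝ) * (NN c4.LFunction T (2 * T) : ℝ) +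
        (S0 + S1) := by
    rw [d2, ← s1]
    push_cast
    rfl
  have hline : ∑ j ∈ Finset.range (m0 g m + 1), cH g (m0 g m) (0 + 2 * j) *
      (Ns (LK (2 + 4 * j) (ce 2)) T (2 * T) : ℝ) + ∑ j ∈ Finset.range (m0 g m + 1), cH g (m0 g m) (1 + 2 * j) *
      (Ns (LK (4 + 4 * j) (ce 4)) T (2 * T) : ℝ) ≤ (cnt (Fev g m) (line T (2 * T)) : ℝ) := by
    rw [← s2]
    exact_mod_cast d3
  have hS0p : 0 < S0 := lt_of_lt_of_le (by positivity) a2
  constructor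
  · rw [hcount]
    refine le_trans ?_ hline
    have h1 : 0 ≤ e' * S1 := by positivity
    have h2 : 0 ≤ e' * S0 := by positivity
    nlinarith
  · have h1 : (0 : ℝ) < (cnt (Fev g m) (strip T (2 * T)) : ℝ) := by
      rw [hcount]
      have h2 : (0 : ℝ) ≤ (mz g m : ℝ) * (NN X293.EV.c1.LFunction T (2 * T) : ℝ) := by positivity
      have h3 : (0 : ℝ) ≤ (mc g m : ℝ) * (NN c4.LFunction T (2 * T) : ℝ) := by positivity
      linarith
    exact_mod_cast h1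

/-! ### the pole -/

theorem Fev_diff (g m : ℕ) : DifferentiableOn ℂ (Fev g m) {1}ᶜ := by
  intro s hs
  have hs1 : s ≠ 1 := hs
  rw [Fev_eq]
  refine (DifferentiableAt.fun_finsetProd fun i _ => ?_).differentiableWithinAt
  exact ((fam_an i hs1).differentiableAt).pow _

theorem one_eq : (1 : ℂ) = ⟨1, (0 : ℝ)⟩ := by
  apply Complex.ext <;> simp

/-- the order of the pole at `s = 1` is `mz g m` -/
theorem Fev_pole (g m : ℕ) : ∃ c : ℂ, c ≠ 0 ∧
    Tendsto (fun s => (s - 1) ^ mz g m * Fev g m s) (𝓝[≠] 1) (𝓝 c) := by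
  have h1 : Tendsto (fun s => (s - 1) * c1.LFunction s) (𝓝[≠] 1) (𝓝 (∏ p ∈ (4 : ℕ).primeFactors, (1 - (p : ℂ)⁻¹))) :=
    DirichletCharacter.LFunctionTrivChar_residue_one (N := 4)
  have hr : (∏ p ∈ (4 : ℕ).primeFactors, (1 - (p : ℂ)⁻¹)) ≠ 0 := by
    refine Finset.prod_ne_zero_iff.2 fun p hp => ?_
    have hp' := Nat.prime_of_mem_primeFactors hp
    intro h0
    have h2 : (p : ℂ)⁻¹ = 1 := (sub_eq_zero.1 h0).symm
    have h3 : (p : ℂ) = 1 := by rwa [inv_eq_one] at h2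
    have h4 : p = 1 := by exact_mod_cast h3
    exact hp'.one_lt.ne' h4
  have h4 : c4.LFunction 1 ≠ 0 := DirichletCharacter.LFunction_apply_one_ne_zero c4_ne
  have h5 : Tendsto c4.LFunction (𝓝[≠] 1) (𝓝 (c4.LFunction 1)) :=
    ((DirichletCharacter.differentiable_LFunction c4_ne).continuous.tendsto 1).mono_left nhdsWithin_le_nhds
  have h6 : ∀ l, Tendsto (fun s => FF (2 * (l + 1)) s * (1 - h2 (2 * (l + 1)) * (2 : ℂ) ^ (-s))) (𝓝[≠] 1)
      (𝓝 (FF (2 * (l + 1)) 1 * E2 (2 * (l + 1)) 1)) := by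
    intro l
    have hc : Continuous (fun s => FF (2 * (l + 1)) s * E2 (2 * (l + 1)) s) :=
      ((FF_diff (ev l) (by omega)).mul (E2_diff _)).continuous
    exact (hc.tendsto 1).mono_left nhdsWithin_le_nhds
  have h7 : ∀ l, FF (2 * (l + 1)) 1 * E2 (2 * (l + 1)) 1 ≠ 0 := by
    intro l
    refine mul_ne_zero ?_ (E2_ne (ev l) (by norm_num))
    rw [one_eq]
    exact FF_ne_line (ev l) (by omega) 0
  have h8 : Tendsto (fun s => ∏ l ∈ Finset.range m,
      (FF (2 * (l + 1)) s * (1 - h2 (2 * (l + 1)) * (2 : ℂ) ^ (-s))) ^ me g m (l + 1)) (𝓝[≠] 1)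
      (𝓝 (∏ l ∈ Finset.range m, (FF (2 * (l + 1)) 1 * E2 (2 * (l + 1)) 1) ^ me g m (l + 1))) :=
    tendsto_finsetProd _ fun l _ => (h6 l).pow _
  refine ⟨(∏ p ∈ (4 : ℕ).primeFactors, (1 - (p : ℂ)⁻¹)) ^ mz g m * c4.LFunction 1 ^ mc g m *
    ∏ l ∈ Finset.range m, (FF (2 * (l + 1)) 1 * E2 (2 * (l + 1)) 1) ^ me g m (l + 1), ?_, ?_⟩
  · refine mul_ne_zero (mul_ne_zero (pow_ne_zero _ hr) (pow_ne_zero _ h4)) ?_
    exact Finset.prod_ne_zero_iff.2 fun l _ => pow_ne_zero _ (h7 l)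
  · refine (((h1.pow (mz g m)).mul (h5.pow (mc g m))).mul h8).congr fun s => ?_
    unfold Fev
    rw [mul_pow]
    ring

end Pool.Agent.X293.EV
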